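import Pool.Agent.H62.BS.Final

/-!
# From arbitrary uniform hypergraphs to weighted linear ones

Two edges are joined if they share at least two vertices. The components have less than `e` edges;
one edge is kept from every component, with the size of the component as its weight.
-/

set_option autoImplicit false
set_option linter.unusedSectionVars false

namespace Pool.Agent.H62.BS

open Finset Pool.Agent.H62.BR

variable {V : Type} [Fintype V] [DecidableEq V]

/-- No `e` edges have a union of at most `(r - 2) e + 3` vertices. -/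
def NoConf (r e : ℕ) (H : Finset (Finset V)) : Prop :=
  ∀ S ⊆ H, S.card = e → (r - 2) * e + 3 < (S.biUnion id).card

variable {r e : ℕ} {H : Finset (Finset V)}

lemma insert_union {K : Finset V} {S : Finset (Finset V)} (hK : K.card = r)
    (h2 : 2 ≤ (K ∩ S.biUnion id).card) :
    ((insert K S).biUnion id).card ≤ (S.biUnion id).card + (r - 2) := by
  rw [biUnion_insert, id]
  have h3 := card_union_add_card_inter K (S.biUnion id)
  omega

lemma grow (hu : ∀ E ∈ H, E.card = r) {T S₀ : Finset (Finset V)} (hT : T ⊆ H)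
    (h0 : S₀ ⊆ T) (hc : (S₀.biUnion id).card ≤ (r - 2) * S₀.card + 3)
    (hnext : ∀ S, S₀ ⊆ S → S ⊆ T → S ≠ T → ∃ K ∈ T, K ∉ S ∧ 2 ≤ (K ∩ S.biUnion id).card) :
    ∀ k, S₀.card ≤ k → k ≤ T.card →
      ∃ S, S₀ ⊆ S ∧ S ⊆ T ∧ S.card = k ∧ (S.biUnion id).card ≤ (r - 2) * k + 3 := by
  intro k hk
  induction k, hk using Nat.le_induction with
  | base =>
    intro _
    exact ⟨S₀, Subset.refl _, h0, rfl, hc⟩
  | succ k hk ih =>
    intro hkT
    obtain ⟨S, h1, h2, h3, h4⟩ := ih (by omega)
    obtain ⟨K, hKT, hKS, hK2⟩ := hnext S h1 h2 (by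
      rintro rfl
      omega)
    refine ⟨insert K S, h1.trans (subset_insert _ _), insert_subset hKT h2, ?_, ?_⟩
    · rw [card_insert_of_notMem hKS, h3]
    · have h5 := insert_union (hu K (hT hKT)) hK2
      have h6 : (r - 2) * (k + 1) = (r - 2) * k + (r - 2) := by ring
      omega

lemma NoConf.card_lt (hno : NoConf r e H) (hu : ∀ E ∈ H, E.card = r) {T S₀ : Finset (Finset V)}
    (hT : T ⊆ H) (h0 : S₀ ⊆ T) (hc : (S₀.biUnion id).card ≤ (r - 2) * S₀.card + 3)
    (hnext : ∀ S, S₀ ⊆ S → S ⊆ T → S ≠ T → ∃ K ∈ T, K ∉ S ∧ 2 ≤ (K ∩ S.biUnion id).card)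
    (h0e : S₀.card ≤ e) : T.card < e := by
  by_contra hcon
  push Not at hcon
  obtain ⟨S, -, h2, h3, h4⟩ := grow hu hT h0 hc hnext e h0e hcon
  have := hno S (h2.trans hT) h3
  omega

/-- Two edges that share at least two vertices. -/
def Rel (H : Finset (Finset V)) (E F : Finset V) : Prop := E ∈ H ∧ F ∈ H ∧ 2 ≤ (E ∩ F).card

lemma rel_symm {E F : Finset V} (h : Relation.ReflTransGen (Rel H) E F) :
    Relation.ReflTransGen (Rel H) F E := by
  induction h with
  | refl => exact Relation.ReflTransGen.refl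
  | tail _ hbc ih =>
    exact Relation.ReflTransGen.head ⟨hbc.2.1, hbc.1, by rw [inter_comm]; exact hbc.2.2⟩ ih

/-- Connectedness. -/
def conn (H : Finset (Finset V)) : Setoid (Finset V) where
  r := Relation.ReflTransGen (Rel H)
  iseqv := ⟨fun _ => Relation.ReflTransGen.refl, fun h => rel_symm h, fun h1 h2 => h1.trans h2⟩

lemma exit {S : Finset (Finset V)} {D K : Finset V} (hD : D ∈ S)
    (h : Relation.ReflTransGen (Rel H) D K) (hK : K ∉ S) :
    ∃ K₁ K₂, K₁ ∈ S ∧ K₂ ∉ S ∧ Relation.ReflTransGen (Rel H) D K₂ ∧ Rel H K₁ K₂ := by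
  induction h with
  | refl => exact absurd hD hK
  | @tail b c hb hbc ih =>
    by_cases hbS : b ∈ S
    · exact ⟨b, c, hbS, hK, hb.tail hbc, hbc⟩
    · exact ih hbS

lemma conn_mem {E F : Finset V} (h : Relation.ReflTransGen (Rel H) E F) (hE : E ∈ H) : F ∈ H := by
  rcases h.cases_tail with h1 | ⟨b, -, h1⟩
  · rw [h1]
    exact hE
  · exact h1.2.1

/-- The representative of a component. -/
noncomputable def rep (H : Finset (Finset V)) (E : Finset V) : Finset V :=
  (Quotient.mk (conn H) E).out

lemma rep_rel (E : Finset V) : Relation.ReflTransGen (Rel H) (rep H E) E :=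
  Quotient.mk_out (s := conn H) E

lemma rel_rep (E : Finset V) : Relation.ReflTransGen (Rel H) E (rep H E) :=
  (conn H).iseqv.symm (rep_rel E)

lemma rep_eq {E F : Finset V} (h : Relation.ReflTransGen (Rel H) E F) : rep H E = rep H F := by
  unfold rep
  rw [Quotient.sound (s := conn H) h]

lemma rep_eq_iff {E F : Finset V} : rep H E = rep H F ↔ Relation.ReflTransGen (Rel H) E F := by
  constructor
  · intro h
    exact (rel_rep E).trans (h ▸ rep_rel F)
  · exact rep_eq

lemma rep_rep (E : Finset V) : rep H (rep H E) = rep H E := rep_eq (rep_rel E)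

lemma rep_mem {E : Finset V} (hE : E ∈ H) : rep H E ∈ H := conn_mem (rel_rep E) hE

/-- The representatives. -/
noncomputable def reps (H : Finset (Finset V)) : Finset (Finset V) := H.image (rep H)

lemma mem_reps {E : Finset V} (hE : E ∈ reps H) : E ∈ H ∧ rep H E = E := by
  unfold reps at hE
  rw [mem_image] at hE
  obtain ⟨F, hF, rfl⟩ := hE
  exact ⟨rep_mem hF, rep_rep F⟩

/-- The component with representative `E`. -/
noncomputable def comp (H : Finset (Finset V)) (E : Finset V) : Finset (Finset V) :=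
  H.filter (fun F => rep H F = E)

lemma self_mem_comp {E : Finset V} (hE : E ∈ reps H) : E ∈ comp H E :=
  mem_filter.2 (mem_reps hE)

/-- the next edge inside a union of components. -/
lemma next_edge {S T : Finset (Finset V)} {D K : Finset V}
    (hDS : D ∈ S) (hK : K ∉ S) (hrep : rep H D = rep H K)
    (hT : ∀ F ∈ H, rep H F = rep H D → F ∈ T) :
    ∃ K' ∈ T, K' ∉ S ∧ 2 ≤ (K' ∩ S.biUnion id).card := by
  obtain ⟨K₁, K₂, h1, h2, h3, h4⟩ := exit hDS (rep_eq_iff.1 hrep) hK
  refine ⟨K₂, hT K₂ h4.2.1 (rep_eq h3).symm, h2, ?_⟩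
  refine h4.2.2.trans ?_
  rw [inter_comm]
  refine card_le_card (inter_subset_inter_left ?_)
  intro z hz
  rw [mem_biUnion]
  exact ⟨K₁, h1, hz⟩

lemma comp_lt (hr : 3 ≤ r) (he : 3 ≤ e) (hu : ∀ E ∈ H, E.card = r) (hno : NoConf r e H)
    (E : Finset V) : (comp H E).card < e := by
  rcases (comp H E).eq_empty_or_nonempty with h0 | ⟨F, hF⟩
  · rw [h0, card_empty]
    omega
  refine hno.card_lt hu (T := comp H E) (S₀ := {F}) (filter_subset _ _)
    (singleton_subset_iff.2 hF) ?_ ?_ ?_
  · rw [singleton_biUnion, id, card_singleton, hu F (mem_filter.1 hF).1]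
    omega
  · intro S h1 h2 h3
    have h4 : ∃ K ∈ comp H E, K ∉ S := by
      by_contra hcon
      push Not at hcon
      exact h3 (Subset.antisymm h2 hcon)
    obtain ⟨K, hK, hKS⟩ := h4
    have hFE := (mem_filter.1 hF).2
    have hKE := (mem_filter.1 hK).2
    refine next_edge (singleton_subset_iff.1 h1) hKS (hFE.trans hKE.symm) ?_
    intro G hG hGr
    exact mem_filter.2 ⟨hG, hGr.trans hFE⟩
  · rw [card_singleton]
    omega

/-- The weights. -/
noncomputable def wt (e : ℕ) (H : Finset (Finset V)) (E : Finset V) : ℝ :=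
  ((comp H E).card : ℝ) / e

lemma reps_lin {E F : Finset V} (hE : E ∈ reps H) (hF : F ∈ reps H) (hEF : E ≠ F) :
    (E ∩ F).card ≤ 1 := by
  by_contra hcon
  push Not at hcon
  obtain ⟨h1, h2⟩ := mem_reps hE
  obtain ⟨h3, h4⟩ := mem_reps hF
  have h5 : Rel H E F := ⟨h1, h3, by omega⟩
  have h6 := rep_eq (Relation.ReflTransGen.single h5)
  rw [h2, h4] at h6
  exact hEF h6

/-- The cross edges. -/
noncomputable def crs (H : Finset (Finset V)) (E F : Finset V) (x : V) : Finset (Finset V) :=
  (reps H).filter (fun G => G ≠ E ∧ G ≠ F ∧ (∃ y ∈ E.erase x, y ∈ G) ∧ ∃ w ∈ F.erase x, w ∈ G)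

lemma cross_card (hr : 3 ≤ r) (he : 3 ≤ e) (hu : ∀ E ∈ H, E.card = r) (hno : NoConf r e H)
    {E F : Finset V} (hE : E ∈ reps H) (hF : F ∈ reps H) (hEF : E ≠ F) {x : V} (hxE : x ∈ E)
    (hxF : x ∈ F) : ∑ G ∈ crs H E F x, (comp H G).card + 3 ≤ e := by
  have hlin := reps_lin hE hF hEF
  set P : Finset (Finset V) := insert E (insert F (crs H E F x)) with hP
  set T : Finset (Finset V) := H.filter (fun K => rep H K ∈ P) with hT
  have hcrs : ∀ G ∈ crs H E F x, G ∈ reps H ∧ G ≠ E ∧ G ≠ F ∧
      (∃ y ∈ E.erase x, y ∈ G) ∧ ∃ w ∈ F.erase x, w ∈ G := by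
    intro G hG
    rw [crs, mem_filter] at hG
    exact hG
  have hPreps : ∀ D ∈ P, D ∈ reps H := by
    intro D hD
    rw [hP, mem_insert, mem_insert] at hD
    rcases hD with rfl | rfl | hD
    · exact hE
    · exact hF
    · exact (hcrs D hD).1
  have hPT : P ⊆ T := by
    intro D hD
    obtain ⟨h1, h2⟩ := mem_reps (hPreps D hD)
    rw [hT, mem_filter, h2]
    exact ⟨h1, hD⟩
  have hEP : E ∈ P := by simp [hP]
  have hFP : F ∈ P := by simp [hP]
  have hTe : T.card < e := by
    refine hno.card_lt hu (T := T) (S₀ := {E, F}) (filter_subset _ _) ?_ ?_ ?_ ?_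
    · intro D hD
      rw [mem_insert, mem_singleton] at hD
      rcases hD with rfl | rfl
      · exact hPT hEP
      · exact hPT hFP
    · rw [card_pair hEF]
      have h1 : ({E, F} : Finset (Finset V)).biUnion id = E ∪ F := by
        rw [biUnion_insert, singleton_biUnion]
        rfl
      rw [h1]
      have h2 := card_union_add_card_inter E F
      have h3 : 0 < (E ∩ F).card := card_pos.2 ⟨x, mem_inter.2 ⟨hxE, hxF⟩⟩
      have h4 := hu E (mem_reps hE).1
      have h5 := hu F (mem_reps hF).1
      omega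
    · intro S h1 h2 h3
      have hES : E ∈ S := h1 (by simp)
      have hFS : F ∈ S := h1 (by simp)
      have h4 : ∃ K ∈ T, K ∉ S := by
        by_contra hcon
        push Not at hcon
        exact h3 (Subset.antisymm h2 hcon)
      obtain ⟨K, hK, hKS⟩ := h4
      have hKP := (mem_filter.1 hK).2
      by_cases hD : rep H K ∈ S
      · refine next_edge hD hKS (rep_rep K) ?_
        intro G hG hGr
        rw [rep_rep] at hGr
        rw [hT, mem_filter, hGr]
        exact ⟨hG, hKP⟩
      · refine ⟨rep H K, hPT hKP, hD, ?_⟩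
        have h5 : rep H K ∈ crs H E F x := by
          rw [hP, mem_insert, mem_insert] at hKP
          rcases hKP with h | h | h
          · exact absurd (h ▸ hES) hD
          · exact absurd (h ▸ hFS) hD
          · exact h
        obtain ⟨-, -, -, ⟨y, hy, hyG⟩, ⟨w, hw, hwG⟩⟩ := hcrs _ h5
        rw [mem_erase] at hy hw
        have hyw : y ≠ w := by
          rintro rfl
          have h6 : ({x, y} : Finset V) ⊆ E ∩ F := by
            intro z hz
            rw [mem_insert, mem_singleton] at hz
            rcases hz with rfl | rfl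
            · exact mem_inter.2 ⟨hxE, hxF⟩
            · exact mem_inter.2 ⟨hy.2, hw.2⟩
          have h7 := card_le_card h6
          rw [card_pair (Ne.symm hy.1)] at h7
          omega
        rw [← card_pair hyw]
        refine card_le_card ?_
        intro z hz
        rw [mem_insert, mem_singleton] at hz
        rw [mem_inter, mem_biUnion]
        rcases hz with rfl | rfl
        · exact ⟨hyG, E, hES, hy.2⟩
        · exact ⟨hwG, F, hFS, hw.2⟩
    · rw [card_pair hEF]
      omega
  have hTsum : T.card = ∑ D ∈ P, (comp H D).card := by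
    rw [card_eq_sum_card_fiberwise (s := T) (t := P) (f := rep H)
      (fun K hK => (mem_filter.1 hK).2)]
    refine sum_congr rfl fun D hD => ?_
    congr 1
    ext K
    simp only [hT, comp, mem_filter]
    constructor
    · rintro ⟨⟨h1, -⟩, h2⟩
      exact ⟨h1, h2⟩
    · rintro ⟨h1, h2⟩
      exact ⟨⟨h1, h2 ▸ hD⟩, h2⟩
  have hE1 : E ∉ insert F (crs H E F x) := by
    rw [mem_insert]
    rintro (h | h)
    · exact hEF h
    · exact (hcrs E h).2.1 rfl
  have hF1 : F ∉ crs H E F x := fun h => (hcrs F h).2.2.1 rfl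
  rw [hP, sum_insert hE1, sum_insert hF1] at hTsum
  have h8 : 0 < (comp H E).card := card_pos.2 ⟨E, self_mem_comp hE⟩
  have h9 : 0 < (comp H F).card := card_pos.2 ⟨F, self_mem_comp hF⟩
  omega

lemma hyp_reps (hr : 3 ≤ r) (he : 3 ≤ e) (hu : ∀ E ∈ H, E.card = r) (hno : NoConf r e H) :
    Hyp r (((e : ℝ) - 3) / e) (reps H) (wt e H) := by
  have he0 : (0 : ℝ) < e := by exact_mod_cast (by omega : 0 < e)
  have he3 : (3 : ℝ) ≤ e := by exact_mod_cast he
  have hc0 : ∀ E, 0 ≤ wt e H E := fun E => by
    unfold wt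
    positivity
  refine ⟨fun E hE => hu E (mem_reps hE).1, fun E hE F hF hEF => reps_lin hE hF hEF, hc0,
    fun E => ?_, div_nonneg (by linarith) he0.le, ?_⟩
  · unfold wt
    rw [div_le_one he0]
    exact_mod_cast (comp_lt hr he hu hno E).le
  · intro E hE F hF hEF x hxE hxF
    have hlin := reps_lin hE hF hEF
    have hinter : ∀ z, z ∈ E → z ∈ F → z = x := by
      intro z h1 h2
      by_contra hzx
      have h6 : ({x, z} : Finset V) ⊆ E ∩ F := by
        intro u hu'
        rw [mem_insert, mem_singleton] at hu'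
        rcases hu' with rfl | rfl
        · exact mem_inter.2 ⟨hxE, hxF⟩
        · exact mem_inter.2 ⟨h1, h2⟩
      have h7 := card_le_card h6
      rw [card_pair (Ne.symm hzx)] at h7
      omega
    have h1 : ∑ y ∈ E.erase x, ∑ w ∈ F.erase x, adj (reps H) (wt e H) y w ≤
        ∑ G ∈ crs H E F x, wt e H G := by
      have h2 : ∀ y ∈ E.erase x, ∀ w ∈ F.erase x, adj (reps H) (wt e H) y w ≤
          ∑ G ∈ crs H E F x, (if y ∈ G then (if w ∈ G then wt e H G else 0) else 0) := by
        intro y hy w hw
        rw [mem_erase] at hy hw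
        have hyw : y ≠ w := fun h => hy.1 (hinter y hy.2 (h ▸ hw.2))
        unfold adj
        rw [if_neg hyw]
        have h3 : (reps H).filter (fun G => y ∈ G ∧ w ∈ G) ⊆ crs H E F x := by
          intro G hG
          rw [mem_filter] at hG
          rw [crs, mem_filter]
          refine ⟨hG.1, ?_, ?_, ⟨y, mem_erase.2 hy, hG.2.1⟩, ⟨w, mem_erase.2 hw, hG.2.2⟩⟩
          · rintro rfl
            exact hw.1 (hinter w hG.2.2 hw.2)
          · rintro rfl
            exact hy.1 (hinter y hy.2 hG.2.1)
        calc ∑ G ∈ (reps H).filter (fun G => y ∈ G ∧ w ∈ G), wt e H G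
            = ∑ G ∈ (reps H).filter (fun G => y ∈ G ∧ w ∈ G),
                (if y ∈ G then (if w ∈ G then wt e H G else 0) else 0) := by
              refine sum_congr rfl fun G hG => ?_
              rw [mem_filter] at hG
              rw [if_pos hG.2.1, if_pos hG.2.2]
          _ ≤ _ := by
              refine sum_le_sum_of_subset_of_nonneg h3 fun G _ _ => ?_
              split_ifs
              · exact hc0 G
              · exact le_rfl
              · exact le_rfl
      calc ∑ y ∈ E.erase x, ∑ w ∈ F.erase x, adj (reps H) (wt e H) y w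
          ≤ ∑ y ∈ E.erase x, ∑ w ∈ F.erase x, ∑ G ∈ crs H E F x,
              (if y ∈ G then (if w ∈ G then wt e H G else 0) else 0) :=
            sum_le_sum fun y hy => sum_le_sum fun w hw => h2 y hy w hw
        _ = ∑ G ∈ crs H E F x, ∑ y ∈ E.erase x, ∑ w ∈ F.erase x,
              (if y ∈ G then (if w ∈ G then wt e H G else 0) else 0) := by
            have h3 : ∀ y, ∑ w ∈ F.erase x, ∑ G ∈ crs H E F x,
                (if y ∈ G then (if w ∈ G then wt e H G else 0) else 0) =
                ∑ G ∈ crs H E F x, ∑ w ∈ F.erase x,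
                  (if y ∈ G then (if w ∈ G then wt e H G else 0) else 0) := fun y => sum_comm
            simp only [h3]
            rw [sum_comm]
        _ ≤ ∑ G ∈ crs H E F x, wt e H G := by
            refine sum_le_sum fun G hG => ?_
            rw [crs, mem_filter] at hG
            have h4 : ((E.erase x).filter (fun y => y ∈ G)).card ≤ 1 := by
              refine (card_le_card ?_).trans (reps_lin hE hG.1 (Ne.symm hG.2.1))
              intro y hy
              rw [mem_filter, mem_erase] at hy
              exact mem_inter.2 ⟨hy.1.2, hy.2⟩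
            have h5 : ((F.erase x).filter (fun w => w ∈ G)).card ≤ 1 := by
              refine (card_le_card ?_).trans (reps_lin hF hG.1 (Ne.symm hG.2.2.1))
              intro w hw
              rw [mem_filter, mem_erase] at hw
              exact mem_inter.2 ⟨hw.1.2, hw.2⟩
            have h6 : ∀ y, ∑ w ∈ F.erase x,
                (if y ∈ G then (if w ∈ G then wt e H G else 0) else 0) =
                if y ∈ G then (((F.erase x).filter (fun w => w ∈ G)).card : ℝ) * wt e H G
                  else 0 := by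
              intro y
              split_ifs
              · rw [← sum_filter, sum_const, nsmul_eq_mul]
              · simp
            simp only [h6]
            rw [← sum_filter, sum_const, nsmul_eq_mul]
            have h7 : ((((E.erase x).filter (fun y => y ∈ G)).card : ℕ) : ℝ) ≤ 1 := by
              exact_mod_cast h4
            have h8 : ((((F.erase x).filter (fun w => w ∈ G)).card : ℕ) : ℝ) ≤ 1 := by
              exact_mod_cast h5
            have h9 := hc0 G
            calc _ ≤ (1 : ℝ) * (1 * wt e H G) := by gcongr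
              _ = _ := by ring
    refine h1.trans ?_
    unfold wt
    rw [← sum_div]
    refine div_le_div_of_nonneg_right ?_ he0.le
    have h10 := cross_card hr he hu hno hE hF hEF hxE hxF
    have h11 : ((∑ G ∈ crs H E F x, (comp H G).card + 3 : ℕ) : ℝ) ≤ e := by exact_mod_cast h10
    push_cast at h11
    linarith

lemma sum_wt (e : ℕ) (H : Finset (Finset V)) : ∑ E ∈ reps H, wt e H E = (H.card : ℝ) / e := by
  unfold wt
  rw [← sum_div]
  congr 1
  have h1 := card_eq_sum_card_image (rep H) H
  rw [h1]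
  push_cast
  rfl

/-- **The density bound for all uniform hypergraphs.** -/
theorem main_all {r e : ℕ} (hr : 3 ≤ r) (he : 3 ≤ e) {γ : ℝ}
    (hγ : ((e : ℝ) - 3) * (3 * r - 5) / (2 * (r : ℝ) ^ 2 * ((r : ℝ) - 1) ^ 2 * (r - 2)) < γ) :
    ∃ N : ℕ, ∀ (V : Type) [Fintype V] [DecidableEq V] (H : Finset (Finset V)),
      N ≤ Fintype.card V → (∀ E ∈ H, E.card = r) → NoConf r e H →
      (H.card : ℝ) < γ * (Fintype.card V : ℝ) ^ 2 := by
  have he0 : (0 : ℝ) < e := by exact_mod_cast (by omega : 0 < e)
  have he3 : (3 : ℝ) ≤ e := by exact_mod_cast he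
  obtain ⟨N, hN⟩ := main hr (α := ((e : ℝ) - 3) / e) (γ := γ / e)
    (div_nonneg (by linarith) he0.le) (by
      rw [lt_div_iff₀ he0]
      refine lt_of_eq_of_lt ?_ hγ
      field_simp)
  refine ⟨N, fun V _ _ H hcard hu hno => ?_⟩
  have h1 := hN V (reps H) (wt e H) hcard (hyp_reps hr he hu hno)
  rw [sum_wt e H, div_lt_iff₀ he0] at h1
  refine h1.trans_le (le_of_eq ?_)
  field_simp

end Pool.Agent.H62.BS
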