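import Pool.Agent.H62.BS.Main

/-!
# The density bound for linear hypergraphs
-/

set_option autoImplicit false

namespace Pool.Agent.H62.BS

open Finset Pool.Agent.H62.BR

lemma numeric {r g S l a η ε₁ ε₂ γ : ℝ} (hr : 3 ≤ r) (hγ : 0 < γ) (hg : γ ≤ g)
    (hη : 0 ≤ η) (ha : 0 ≤ a) (h1 : 0 ≤ ε₁) (h2 : 0 ≤ ε₂) (hS : r ^ 2 * g ^ 2 ≤ S)
    (hL : (r - 1) * S - ε₁ ≤ l) (hC : l ^ 2 ≤ g * ((a + 2 * η) * S + ε₂)) :
    (r - 1) ^ 2 * r ^ 2 * γ ≤ a + 2 * η + 2 * (r - 1) * ε₁ / γ + ε₂ / (r ^ 2 * γ ^ 2) := by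
  have hg0 : 0 < g := lt_of_lt_of_le hγ hg
  have hS0 : 0 < S := lt_of_lt_of_le (by positivity) hS
  have hr1 : 0 < r - 1 := by linarith
  have h3 : (r - 1) ^ 2 * S ^ 2 - 2 * (r - 1) * ε₁ * S ≤ g * ((a + 2 * η) * S + ε₂) := by
    by_cases hc : (r - 1) * S ≤ ε₁
    · have h4 : (r - 1) * S * ((r - 1) * S) ≤ ε₁ * ((r - 1) * S) :=
        mul_le_mul_of_nonneg_right hc (by positivity)
      have h5 : 0 ≤ g * ((a + 2 * η) * S + ε₂) := by positivity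
      have h6 : 0 ≤ ε₁ * ((r - 1) * S) := by positivity
      nlinarith
    · push Not at hc
      have h4 : ((r - 1) * S - ε₁) ^ 2 ≤ l ^ 2 := by
        apply pow_le_pow_left₀ (by linarith) hL
      nlinarith [sq_nonneg ε₁]
  have h4 : (r - 1) ^ 2 * S ≤ 2 * (r - 1) * ε₁ + g * (a + 2 * η) + g * ε₂ / S := by
    have h5 : (r - 1) ^ 2 * S * S ≤ (2 * (r - 1) * ε₁ + g * (a + 2 * η) + g * ε₂ / S) * S := by
      have h6 : (2 * (r - 1) * ε₁ + g * (a + 2 * η) + g * ε₂ / S) * S =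
          2 * (r - 1) * ε₁ * S + g * ((a + 2 * η) * S + ε₂) := by
        field_simp
        ring
      rw [h6]
      nlinarith
    exact le_of_mul_le_mul_right h5 hS0
  have h5 : g * ε₂ / S ≤ ε₂ / (r ^ 2 * g) := by
    rw [div_le_div_iff₀ hS0 (by positivity)]
    have h6 := mul_le_mul_of_nonneg_left hS h2
    calc g * ε₂ * (r ^ 2 * g) = ε₂ * (r ^ 2 * g ^ 2) := by ring
      _ ≤ ε₂ * S := h6
  have h6 : (r - 1) ^ 2 * (r ^ 2 * g ^ 2) ≤ (r - 1) ^ 2 * S :=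
    mul_le_mul_of_nonneg_left hS (by positivity)
  have h7 : (r - 1) ^ 2 * r ^ 2 * g ≤
      a + 2 * η + 2 * (r - 1) * ε₁ / g + ε₂ / (r ^ 2 * g ^ 2) := by
    have h8 : (r - 1) ^ 2 * r ^ 2 * g * g ≤
        (a + 2 * η + 2 * (r - 1) * ε₁ / g + ε₂ / (r ^ 2 * g ^ 2)) * g := by
      have h9 : (a + 2 * η + 2 * (r - 1) * ε₁ / g + ε₂ / (r ^ 2 * g ^ 2)) * g =
          2 * (r - 1) * ε₁ + g * (a + 2 * η) + ε₂ / (r ^ 2 * g) := by
        field_simp
        ring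
      rw [h9]
      nlinarith
    exact le_of_mul_le_mul_right h8 hg0
  have h8 : 2 * (r - 1) * ε₁ / g ≤ 2 * (r - 1) * ε₁ / γ :=
    div_le_div_of_nonneg_left (by positivity) hγ hg
  have h9 : ε₂ / (r ^ 2 * g ^ 2) ≤ ε₂ / (r ^ 2 * γ ^ 2) := by
    apply div_le_div_of_nonneg_left h2 (by positivity)
    gcongr
  have h10 : (r - 1) ^ 2 * r ^ 2 * γ ≤ (r - 1) ^ 2 * r ^ 2 * g := by gcongr
  linarith

/-- **The density bound.** -/
theorem main {r : ℕ} (hr : 3 ≤ r) {α γ : ℝ} (hα : 0 ≤ α)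
    (hγ : α * (3 * r - 5) / (2 * (r : ℝ) ^ 2 * ((r : ℝ) - 1) ^ 2 * (r - 2)) < γ) :
    ∃ N : ℕ, ∀ (V : Type) [Fintype V] [DecidableEq V] (H : Finset (Finset V))
      (c : Finset V → ℝ), N ≤ Fintype.card V → Hyp r α H c →
      ∑ E ∈ H, c E < γ * (Fintype.card V : ℝ) ^ 2 := by
  classical
  have hr3 : (3 : ℝ) ≤ r := by exact_mod_cast hr
  have hr1 : (0 : ℝ) < (r : ℝ) - 1 := by linarith
  have hr2 : (0 : ℝ) < (r : ℝ) - 2 := by linarith
  have hr0 : (0 : ℝ) < (r : ℝ) := by linarith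
  have h35 : (0 : ℝ) < 3 * (r : ℝ) - 5 := by linarith
  set a : ℝ := α * (3 * r - 5) / (2 * (r - 2)) with ha
  have ha0 : 0 ≤ a := by
    rw [ha]
    apply div_nonneg (mul_nonneg hα h35.le) (by linarith)
  have haγ : a < ((r : ℝ) - 1) ^ 2 * (r : ℝ) ^ 2 * γ := by
    rw [div_lt_iff₀ (by positivity)] at hγ
    rw [ha, div_lt_iff₀ (by positivity)]
    linarith
  have hγ0 : 0 < γ := by
    refine lt_of_le_of_lt ?_ hγ
    apply div_nonneg (mul_nonneg hα h35.le)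
    positivity
  set β : ℝ := ((r : ℝ) - 1) ^ 2 * (r : ℝ) ^ 2 * γ - a with hβ
  have hβ0 : 0 < β := by linarith
  set K : ℝ := 2 + 4 * ((r : ℝ) - 1) / γ + 8 / ((r : ℝ) ^ 2 * γ ^ 2) with hK
  have hK0 : 0 < K := by positivity
  set t : ℝ := min 1 (β / (2 * K)) with ht
  have ht0 : 0 < t := lt_min one_pos (by positivity)
  have ht1 : t ≤ 1 := min_le_left _ _
  have htK : t * K < β := by
    have h1 : t ≤ β / (2 * K) := min_le_right _ _
    rw [le_div_iff₀ (by positivity)] at h1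
    have h2 : 0 < t * K := mul_pos ht0 hK0
    linarith
  set ε : ℝ := t ^ 3 / r with hε
  set Φ : ℕ → ℝ := fun M => t ^ 4 / (r * ((M : ℝ) + 2) ^ 2) with hΦ
  have hε0 : 0 < ε := by positivity
  have hΦ0 : ∀ M, 0 < Φ M := fun M => by
    rw [hΦ]
    positivity
  obtain ⟨Mmax, hMmax⟩ := strong hε0 Φ hΦ0
  obtain ⟨N, hN⟩ := exists_nat_gt ((Mmax : ℝ) ^ 2 * (r : ℝ) ^ 3 / t ^ 4 + (r : ℝ) ^ 3 / t + 1)
  refine ⟨N, ?_⟩
  intro V _ _ H c hcard hyp
  by_contra hdens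
  push Not at hdens
  set n : ℝ := (Fintype.card V : ℝ) with hn
  have hNn : (N : ℝ) ≤ n := by rw [hn]; exact_mod_cast hcard
  have hn1 : (Mmax : ℝ) ^ 2 * (r : ℝ) ^ 3 / t ^ 4 ≤ n := by
    have : 0 ≤ (r : ℝ) ^ 3 / t := by positivity
    linarith
  have hn2 : (r : ℝ) ^ 3 / t ≤ n := by
    have : 0 ≤ (Mmax : ℝ) ^ 2 * (r : ℝ) ^ 3 / t ^ 4 := by positivity
    linarith
  have hn0 : 0 < n := by
    have : 0 ≤ (Mmax : ℝ) ^ 2 * (r : ℝ) ^ 3 / t ^ 4 := by positivity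
    have : 0 ≤ (r : ℝ) ^ 3 / t := by positivity
    linarith
  obtain ⟨M, hM1, hMle, π, hπ, Q, hsmall, hcut⟩ :=
    hMmax V (adj H c) hyp.adj_nonneg hyp.adj_le_one
  have s : Setting r α H c M π Q ε (Φ M) := ⟨hyp, hr, hM1, hπ, hsmall, hcut⟩
  set h : ℝ := ∑ E ∈ H, c E with hh0
  have hhn : 0 ≤ h := sum_nonneg fun E _ => hyp.c0 E
  have hM0 : (0 : ℝ) < M := by exact_mod_cast hM1
  have hMM : (M : ℝ) ≤ Mmax := by exact_mod_cast hMle
  -- small quantities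
  have hφM : (M : ℝ) ^ 2 * r * Φ M ≤ t ^ 4 := by
    rw [hΦ]
    have h1 : (M : ℝ) ^ 2 * r * (t ^ 4 / (r * ((M : ℝ) + 2) ^ 2)) =
        t ^ 4 * ((M : ℝ) ^ 2 / ((M : ℝ) + 2) ^ 2) := by field_simp
    simp only [h1]
    have h2 : (M : ℝ) ^ 2 / ((M : ℝ) + 2) ^ 2 ≤ 1 := by
      rw [div_le_one (by positivity)]
      gcongr
      linarith
    exact mul_le_of_le_one_right (by positivity) h2
  have ht3 : t ^ 3 ≤ t := pow_le_of_le_one ht0.le ht1 (by norm_num)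
  have ht4 : t ^ 4 ≤ t := pow_le_of_le_one ht0.le ht1 (by norm_num)
  have hφ2 : ((M : ℝ) + 2) * Φ M ≤ t / 3 := by
    have h1 : ((M : ℝ) + 2) * Φ M = t ^ 4 / (r * ((M : ℝ) + 2)) := by
      simp only [hΦ]
      field_simp
    rw [h1, div_le_div_iff₀ (by positivity) (by norm_num)]
    have h2 : (3 : ℝ) ≤ r * ((M : ℝ) + 2) := by
      calc (3 : ℝ) = 3 * 1 := by ring
        _ ≤ r * ((M : ℝ) + 2) := mul_le_mul hr3 (by linarith) zero_le_one hr0.le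
    have h3 := mul_le_mul ht4 h2 (by norm_num) ht0.le
    exact h3
  have hφ1 : Φ M ≤ t := by
    have h1 := hΦ0 M
    have h2 : (1 : ℝ) ≤ (M : ℝ) + 2 := by linarith
    have h3 := mul_le_mul_of_nonneg_right h2 h1.le
    linarith
  have hε3 : 3 * ε ≤ t := by
    rw [hε, ← mul_div_assoc, div_le_iff₀ hr0, mul_comm t]
    exact mul_le_mul hr3 ht3 (by positivity) hr0.le
  -- the bad flags
  set Bad : ℝ := ∑ x, wY H c x (univ.filter (fun y =>
    bad H (stp (adj H c) π) (α / 2 + t) x y)) with hBad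
  have hbad : Bad ≤ 5 * t * n ^ 2 := by
    have h1 := bad_total s ht0 ht0 ht0 (hΦ0 M).le
    rw [← hn] at h1
    refine (le_of_eq (by rw [hBad])).trans (h1.trans ?_)
    have h2 : 1 / (t * t) * ((M : ℝ) ^ 2 / t * (n * (r : ℝ) ^ 3 + r * Φ M * n ^ 2) +
        r * (ε * n ^ 2)) = (M : ℝ) ^ 2 * (r : ℝ) ^ 3 / t ^ 4 * (t * n) +
          (M : ℝ) ^ 2 * r * Φ M / t ^ 4 * (t * n ^ 2) + t * n ^ 2 := by
      rw [hε]
      field_simp
    rw [h2]
    have h3 : (M : ℝ) ^ 2 * (r : ℝ) ^ 3 / t ^ 4 * (t * n) ≤ n * (t * n) := by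
      refine mul_le_mul_of_nonneg_right ?_ (by positivity)
      refine le_trans ?_ hn1
      gcongr
    have h4 : (M : ℝ) ^ 2 * r * Φ M / t ^ 4 * (t * n ^ 2) ≤ 1 * (t * n ^ 2) := by
      refine mul_le_mul_of_nonneg_right ?_ (by positivity)
      rw [div_le_one (by positivity)]
      exact hφM
    have h5 : n * (t * n) = t * n ^ 2 := by ring
    rw [h5] at h3
    linarith
  -- sums
  set S2 : ℝ := ∑ x, m H c x ^ 2 with hS2
  set L : ℝ := ∑ x, m H c x * ∑ w, stp (adj H c) π x w with hL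
  have hm : ∑ x, m H c x = r * h := hyp.sum_m
  have hS2n : (r * h) ^ 2 ≤ n * S2 := by
    rw [← hm]
    have h1 := sq_sum_le_card_mul_sum_sq (s := (univ : Finset V)) (f := fun x => m H c x)
    rw [card_univ] at h1
    exact h1
  have hh : r * h ≤ n ^ 2 := by
    rw [← hm]
    calc ∑ x, m H c x ≤ ∑ x : V, n := sum_le_sum fun x _ => hyp.m_le (by omega) x
      _ = n ^ 2 := by rw [sum_const, card_univ, nsmul_eq_mul, ← hn, sq]
  have hlow := lower_L s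
  rw [← hn, ← hS2, ← hL] at hlow
  have hup := core s ht0.le
  rw [← hn, ← hS2, ← hL, ← hBad, hm, ← ha] at hup
  have hn3 : 0 < n ^ 3 := by positivity
  have hfin := numeric (r := r) (g := h / n ^ 2) (S := S2 / n ^ 3) (l := L / n ^ 3)
    (a := a) (η := t) (ε₁ := 2 * t) (ε₂ := 8 * t) (γ := γ) hr3 hγ0
    (by rw [le_div_iff₀ (by positivity)]; exact hdens) ht0.le ha0 (by positivity) (by positivity)
    (by
      rw [div_pow, ← mul_div_assoc, div_le_div_iff₀ (by positivity) hn3]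
      have h1 := mul_le_mul_of_nonneg_right hS2n (by positivity : (0 : ℝ) ≤ n ^ 3)
      calc (r : ℝ) ^ 2 * h ^ 2 * n ^ 3 = (r * h) ^ 2 * n ^ 3 := by ring
        _ ≤ n * S2 * n ^ 3 := h1
        _ = S2 * (n ^ 2) ^ 2 := by ring)
    (by
      have h1 : ((r : ℝ) - 1) * (S2 / n ^ 3) - 2 * t =
          (((r : ℝ) - 1) * S2 - 2 * t * n ^ 3) / n ^ 3 := by field_simp
      rw [h1]
      refine div_le_div_of_nonneg_right ?_ hn3.le
      refine le_trans ?_ hlow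
      have h2 : (ε + Φ M) * n ^ 3 ≤ 2 * t * n ^ 3 := by
        refine mul_le_mul_of_nonneg_right ?_ hn3.le
        linarith
      linarith)
    (by
      rw [div_pow, div_le_iff₀ (by positivity)]
      refine hup.trans ?_
      have h1 : h / n ^ 2 * ((a + 2 * t) * (S2 / n ^ 3) + 8 * t) * (n ^ 3) ^ 2 =
          h * n * ((a + 2 * t) * S2 + 8 * t * n ^ 3) := by
        field_simp
      rw [h1]
      refine mul_le_mul_of_nonneg_left ?_ (by positivity)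
      have h2 : (3 * ε + ((M : ℝ) + 2) * Φ M) * n ^ 3 ≤ 2 * t * n ^ 3 := by
        refine mul_le_mul_of_nonneg_right ?_ hn3.le
        linarith
      have h3 : ((r : ℝ) - 1) ^ 2 * (r * h) ≤ t * n ^ 3 := by
        rw [div_le_iff₀ ht0] at hn2
        have h4 : ((r : ℝ) - 1) ^ 2 ≤ (r : ℝ) ^ 3 := by nlinarith [sq_nonneg ((r : ℝ) - 1)]
        calc ((r : ℝ) - 1) ^ 2 * (r * h) ≤ (r : ℝ) ^ 3 * n ^ 2 := by gcongr
          _ ≤ n * t * n ^ 2 := by gcongr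
          _ = t * n ^ 3 := by ring
      have h5 : n * Bad ≤ 5 * t * n ^ 3 := by
        have := mul_le_mul_of_nonneg_left hbad hn0.le
        linarith
      linarith)
  have h9 : a + 2 * t + 2 * ((r : ℝ) - 1) * (2 * t) / γ + 8 * t / ((r : ℝ) ^ 2 * γ ^ 2) =
      a + t * K := by
    rw [hK]
    field_simp
    ring
  rw [h9] at hfin
  linarith

end Pool.Agent.H62.BS
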