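import Pool.Agent.H62.BS.Hyp

/-!
# Few bad flags
-/

set_option autoImplicit false
set_option linter.unusedSectionVars false

namespace Pool.Agent.H62.BS

open Finset Pool.Agent.H62.BR

variable {V : Type} [Fintype V] [DecidableEq V]

variable {r : ℕ} {α : ℝ} {H : Finset (Finset V)} {c : Finset V → ℝ}

/-- the weights of the vertices opposite to `Y` in the link of `x`. -/
noncomputable def zeta (H : Finset (Finset V)) (c : Finset V → ℝ) (x : V) (Y : Finset V) (z : V) :
    ℝ :=
  ∑ E ∈ ea H x, c E * ∑ y ∈ yp x Y E, (if z ∈ (E.erase x).erase y then 1 else 0)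

lemma sum_zeta (H : Finset (Finset V)) (c : Finset V → ℝ) (x : V) (Y : Finset V) (g : V → ℝ) :
    ∑ z, zeta H c x Y z * g z =
      ∑ E ∈ ea H x, c E * ∑ y ∈ yp x Y E, ∑ z ∈ (E.erase x).erase y, g z := by
  unfold zeta
  simp only [sum_mul]
  rw [sum_comm]
  refine sum_congr rfl fun E _ => ?_
  simp only [mul_assoc]
  rw [← mul_sum]
  congr 1
  simp only [sum_mul]
  rw [sum_comm]
  refine sum_congr rfl fun y _ => ?_
  have h1 : ∀ z, (if z ∈ (E.erase x).erase y then (1 : ℝ) else 0) * g z =
      if z ∈ (E.erase x).erase y then g z else 0 := by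
    intro z
    split_ifs <;> simp
  simp only [h1]
  rw [← sum_filter, filter_mem_eq_inter, univ_inter]

lemma Hyp.zeta_nonneg (h : Hyp r α H c) (x : V) (Y : Finset V) (z : V) : 0 ≤ zeta H c x Y z := by
  unfold zeta
  refine sum_nonneg fun E _ => mul_nonneg (h.c0 E) (sum_nonneg fun y _ => ?_)
  split_ifs <;> norm_num

lemma Hyp.zeta_le (h : Hyp r α H c) (x : V) (Y : Finset V) (z : V) : zeta H c x Y z ≤ r := by
  unfold zeta
  have h1 : ∀ E ∈ ea H x, c E * ∑ y ∈ yp x Y E,
      (if z ∈ (E.erase x).erase y then (1 : ℝ) else 0) ≤ if z ∈ E.erase x then (r : ℝ) else 0 := by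
    intro E hE
    rw [mem_filter] at hE
    by_cases hz : z ∈ E.erase x
    · rw [if_pos hz]
      have h2 : ∑ y ∈ yp x Y E, (if z ∈ (E.erase x).erase y then (1 : ℝ) else 0) ≤ r := by
        calc _ ≤ ∑ y ∈ yp x Y E, (1 : ℝ) := by
              refine sum_le_sum fun y _ => ?_
              split_ifs <;> norm_num
          _ = ((yp x Y E).card : ℝ) := by simp
          _ ≤ r := by
              rw [← h.unif E hE.1]
              exact_mod_cast card_le_card ((filter_subset _ _).trans (erase_subset _ _))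
      have h3 : 0 ≤ ∑ y ∈ yp x Y E, (if z ∈ (E.erase x).erase y then (1 : ℝ) else 0) := by
        refine sum_nonneg fun y _ => ?_
        split_ifs <;> norm_num
      calc _ ≤ 1 * ∑ y ∈ yp x Y E, (if z ∈ (E.erase x).erase y then (1 : ℝ) else 0) :=
            mul_le_mul_of_nonneg_right (h.c1 E) h3
        _ ≤ r := by rw [one_mul]; exact h2
    · rw [if_neg hz]
      refine mul_nonpos_of_nonneg_of_nonpos (h.c0 E) (sum_nonpos fun y _ => ?_)
      rw [if_neg]
      intro h2
      exact hz (mem_of_mem_erase h2)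
  refine (sum_le_sum h1).trans ?_
  rw [← sum_filter, sum_const, nsmul_eq_mul]
  have h2 : ((ea H x).filter (fun E => z ∈ E.erase x)).card ≤ 1 := by
    rw [card_le_one]
    intro E hE F hF
    simp only [mem_filter, mem_erase] at hE hF
    exact h.eq_of_mem hE.1.1 hF.1.1 (Ne.symm hE.2.1) hE.1.2 hE.2.2 hF.1.2 hF.2.2
  have h3 : ((((ea H x).filter (fun E => z ∈ E.erase x)).card : ℕ) : ℝ) ≤ 1 := by exact_mod_cast h2
  have h4 : (0 : ℝ) ≤ r := Nat.cast_nonneg _
  nlinarith

lemma Hyp.sum_ea_const (h : Hyp r α H c) (G : Finset V → ℝ) :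
    ∑ x, ∑ E ∈ ea H x, G E = (r : ℝ) * ∑ E ∈ H, G E := by
  have h1 : ∀ x, ∑ E ∈ ea H x, G E = ∑ E ∈ H, if x ∈ E then G E else 0 := by
    intro x
    rw [sum_filter]
  simp only [h1]
  rw [sum_comm, mul_sum]
  refine sum_congr rfl fun E hE => ?_
  rw [← sum_filter, filter_mem_eq_inter, univ_inter, sum_const, nsmul_eq_mul, h.unif E hE]

/-- A cell. -/
abbrev cell (π : V → ℕ) (j : ℕ) : Finset V := univ.filter (fun y => π y = j)

lemma Hyp.sum_x_zeta (h : Hyp r α H c) (π : V → ℕ) (j : ℕ) (Y : V → Finset V)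
    (hY : ∀ x, ∀ y ∈ Y x, π y = j) (z : V) :
    ∑ x, zeta H c x (Y x) z ≤ (r : ℝ) * ((cell π j).card : ℝ) := by
  set G : Finset V → ℝ := fun E =>
    if z ∈ E then c E * ∑ y ∈ E.erase z, (if π y = j then 1 else 0) else 0 with hG
  have h1 : ∀ x, zeta H c x (Y x) z ≤ ∑ E ∈ ea H x, G E := by
    intro x
    unfold zeta
    refine sum_le_sum fun E hE => ?_
    simp only [hG]
    by_cases hz : z ∈ E
    · rw [if_pos hz]
      refine mul_le_mul_of_nonneg_left ?_ (h.c0 E)
      calc ∑ y ∈ yp x (Y x) E, (if z ∈ (E.erase x).erase y then (1 : ℝ) else 0)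
          ≤ ∑ y ∈ yp x (Y x) E, (if y ≠ z ∧ π y = j then (1 : ℝ) else 0) := by
            refine sum_le_sum fun y hy => ?_
            rw [mem_filter] at hy
            have h2 := hY x y hy.2
            by_cases h3 : z ∈ (E.erase x).erase y
            · rw [if_pos h3, if_pos]
              rw [mem_erase] at h3
              exact ⟨Ne.symm h3.1, h2⟩
            · rw [if_neg h3]
              split_ifs <;> norm_num
        _ ≤ ∑ y ∈ E, (if y ≠ z ∧ π y = j then (1 : ℝ) else 0) := by
            refine sum_le_sum_of_subset_of_nonneg ((filter_subset _ _).trans (erase_subset _ _)) ?_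
            intro y _ _
            split_ifs <;> norm_num
        _ = ∑ y ∈ E.erase z, (if π y = j then (1 : ℝ) else 0) := by
            rw [← Finset.add_sum_erase E _ hz]
            simp only [ne_eq, not_true_eq_false, false_and, if_false, zero_add]
            refine sum_congr rfl fun y hy => ?_
            rw [mem_erase] at hy
            simp [hy.1]
    · rw [if_neg hz]
      refine mul_nonpos_of_nonneg_of_nonpos (h.c0 E) (sum_nonpos fun y _ => ?_)
      rw [if_neg]
      intro h2
      exact hz (mem_of_mem_erase (mem_of_mem_erase h2))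
  calc ∑ x, zeta H c x (Y x) z ≤ ∑ x, ∑ E ∈ ea H x, G E := sum_le_sum fun x _ => h1 x
    _ = (r : ℝ) * ∑ E ∈ H, G E := h.sum_ea_const G
    _ = (r : ℝ) * ∑ y, adj H c z y * (if π y = j then 1 else 0) := by
        rw [sum_adj H c z, sum_filter]
    _ ≤ (r : ℝ) * ∑ y : V, (if π y = j then 1 else 0) := by
        refine mul_le_mul_of_nonneg_left ?_ (Nat.cast_nonneg _)
        refine sum_le_sum fun y _ => ?_
        have h2 := h.adj_le_one z y
        have h3 := h.adj_nonneg z y
        split_ifs <;> linarith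
    _ = _ := by
        rw [← sum_filter, sum_const, nsmul_eq_mul, mul_one]

/-- The flag `(x, y)` is bad. -/
def bad (H : Finset (Finset V)) (W : V → V → ℝ) (t : ℝ) (x y : V) : Prop :=
  ∃ E ∈ H, x ∈ E ∧ y ∈ E ∧ x ≠ y ∧ t < ∑ z ∈ (E.erase x).erase y, W y z

open Classical in
/-- The bad flags at `x` in the cell `j`. -/
noncomputable def Yb (H : Finset (Finset V)) (W : V → V → ℝ) (t : ℝ) (π : V → ℕ) (x : V) (j : ℕ) :
    Finset V := univ.filter (fun y => bad H W t x y ∧ π y = j)

/-- The setting. -/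
structure Setting (r : ℕ) (α : ℝ) (H : Finset (Finset V)) (c : Finset V → ℝ) (M : ℕ) (π : V → ℕ)
    (Q : V → V → ℝ) (ε φ : ℝ) : Prop where
  hyp : Hyp r α H c
  hr : 3 ≤ r
  M1 : 1 ≤ M
  lt : ∀ x, π x < M
  small : ∑ p : V × V, |Q p.1 p.2 - stp (adj H c) π p.1 p.2| ≤ ε * (Fintype.card V : ℝ) ^ 2
  cut : Cut (fun x y => adj H c x y - Q x y) φ

variable {M : ℕ} {π : V → ℕ} {Q : V → V → ℝ} {ε φ : ℝ}

lemma bad_cell (s : Setting r α H c M π Q ε φ) {η : ℝ} (x : V) (j : ℕ) :
    η * wY H c x (Yb H (stp (adj H c) π) (α / 2 + η) π x j) ^ 2 ≤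
      (Fintype.card V : ℝ) * (r : ℝ) ^ 3 + r * φ * (Fintype.card V : ℝ) ^ 2 +
        ∑ z, zeta H c x (Yb H (stp (adj H c) π) (α / 2 + η) π x j) z *
          ∑ y ∈ cell π j, |Q z y - stp (adj H c) π z y| := by
  classical
  set W := stp (adj H c) π with hW
  set κ : ℝ := α / 2 with hκ
  set Y := Yb H W (κ + η) π x j with hYdef
  have hYmem : ∀ y ∈ Y, bad H W (κ + η) x y ∧ π y = j := by
    intro y hy
    rw [hYdef, Yb, mem_filter] at hy
    exact hy.2
  have hr0 : (0 : ℝ) < r := by
    have := s.hr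
    exact_mod_cast (by omega : 0 < r)
  have hup := s.hyp.link_Y s.hr x Y
  rw [← sum_zeta H c x Y (fun z => ∑ y' ∈ Y, adj H c x y' * adj H c z y'), ← hκ] at hup
  have hsplit : ∑ z, zeta H c x Y z * ∑ y' ∈ Y, adj H c x y' * adj H c z y' =
      ∑ z, zeta H c x Y z * ∑ y' ∈ Y, adj H c x y' * W z y' +
        ∑ z, zeta H c x Y z * ∑ y' ∈ Y, adj H c x y' * (Q z y' - W z y') +
        ∑ z, zeta H c x Y z * ∑ y' ∈ Y, adj H c x y' * (adj H c z y' - Q z y') := by
    rw [← sum_add_distrib, ← sum_add_distrib]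
    refine sum_congr rfl fun z _ => ?_
    rw [← mul_add, ← mul_add, ← sum_add_distrib, ← sum_add_distrib]
    congr 1
    exact sum_congr rfl fun y _ => by ring
  have hw0 : 0 ≤ wY H c x Y := sum_nonneg fun y _ => s.hyp.adj_nonneg x y
  -- the structured part
  have h1 : (κ + η) * wY H c x Y ^ 2 ≤
      ∑ z, zeta H c x Y z * ∑ y' ∈ Y, adj H c x y' * W z y' := by
    rw [sum_zeta H c x Y (fun z => ∑ y' ∈ Y, adj H c x y' * W z y')]
    have h2 : ∀ E ∈ ea H x, ∀ y ∈ yp x Y E,
        (κ + η) * wY H c x Y ≤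
          ∑ z ∈ (E.erase x).erase y, ∑ y' ∈ Y, adj H c x y' * W z y' := by
      intro E hE y hy
      rw [mem_filter] at hE hy
      obtain ⟨⟨F, hF, a1, a2, a3, a4⟩, a5⟩ := hYmem y hy.2
      have hEF : E = F := s.hyp.eq_of_mem hE.1 hF a3 hE.2 (mem_of_mem_erase hy.1) a1 a2
      subst hEF
      have h3 : ∀ z, ∑ y' ∈ Y, adj H c x y' * W z y' = wY H c x Y * W y z := by
        intro z
        have h4 : ∀ y' ∈ Y, adj H c x y' * W z y' = adj H c x y' * W y z := by
          intro y' hy'
          have h5 := (hYmem y' hy').2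
          have h6 : W z y' = W y z := by
            rw [hW, stp_symm (adj_symm H c) π y z]
            exact stp_congr _ _ rfl (by rw [h5, a5])
          rw [h6]
        rw [sum_congr rfl h4, ← sum_mul]
        rfl
      simp only [h3]
      rw [← mul_sum, mul_comm]
      exact mul_le_mul_of_nonneg_left a4.le hw0
    calc (κ + η) * wY H c x Y ^ 2
        = ∑ y ∈ Y, adj H c x y * ((κ + η) * wY H c x Y) := by
          rw [← sum_mul]
          change _ = wY H c x Y * _
          ring
      _ = ∑ E ∈ ea H x, c E * ∑ y ∈ yp x Y E, (κ + η) * wY H c x Y :=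
          (sum_Y H c x Y (fun _ => (κ + η) * wY H c x Y)).symm
      _ ≤ _ := sum_le_sum fun E hE => mul_le_mul_of_nonneg_left
          (sum_le_sum fun y hy => h2 E hE y hy) (s.hyp.c0 E)
  -- the small part
  have h6 : - ∑ z, zeta H c x Y z * ∑ y ∈ cell π j, |Q z y - W z y| ≤
      ∑ z, zeta H c x Y z * ∑ y' ∈ Y, adj H c x y' * (Q z y' - W z y') := by
    rw [← sum_neg_distrib]
    refine sum_le_sum fun z _ => ?_
    rw [← mul_neg]
    refine mul_le_mul_of_nonneg_left ?_ (s.hyp.zeta_nonneg x Y z)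
    have h7 : |∑ y' ∈ Y, adj H c x y' * (Q z y' - W z y')| ≤
        ∑ y ∈ cell π j, |Q z y - W z y| := by
      refine (abs_sum_le_sum_abs _ _).trans ?_
      have h8 : ∀ y' ∈ Y, |adj H c x y' * (Q z y' - W z y')| ≤ |Q z y' - W z y'| := by
        intro y' _
        rw [abs_mul, abs_of_nonneg (s.hyp.adj_nonneg x y')]
        exact mul_le_of_le_one_left (abs_nonneg _) (s.hyp.adj_le_one x y')
      refine (sum_le_sum h8).trans ?_
      refine sum_le_sum_of_subset_of_nonneg ?_ fun _ _ _ => abs_nonneg _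
      intro y hy
      rw [mem_filter]
      exact ⟨mem_univ _, (hYmem y hy).2⟩
    rw [abs_le] at h7
    linarith [h7.1]
  -- the pseudorandom part
  have h8 : - (r * φ * (Fintype.card V : ℝ) ^ 2) ≤
      ∑ z, zeta H c x Y z * ∑ y' ∈ Y, adj H c x y' * (adj H c z y' - Q z y') := by
    have h9 := s.cut.fn_abs (fun z => zeta H c x Y z / r)
      (fun y => if y ∈ Y then adj H c x y else 0)
      (fun z => div_nonneg (s.hyp.zeta_nonneg x Y z) hr0.le)
      (fun z => by rw [div_le_one hr0]; exact s.hyp.zeta_le x Y z)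
      (fun y => by
        split_ifs
        · exact s.hyp.adj_nonneg x y
        · exact le_rfl)
      (fun y => by
        split_ifs
        · exact s.hyp.adj_le_one x y
        · exact zero_le_one)
    rw [abs_le] at h9
    have h10 : ∑ z, zeta H c x Y z * ∑ y' ∈ Y, adj H c x y' * (adj H c z y' - Q z y') =
        r * ∑ z, ∑ y, (adj H c z y - Q z y) *
          (zeta H c x Y z / r * (if y ∈ Y then adj H c x y else 0)) := by
      rw [mul_sum]
      refine sum_congr rfl fun z _ => ?_
      have h11 : ∀ y, (adj H c z y - Q z y) *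
          (zeta H c x Y z / r * (if y ∈ Y then adj H c x y else 0)) =
          (zeta H c x Y z / r) *
            (if y ∈ Y then adj H c x y * (adj H c z y - Q z y) else 0) := by
        intro y
        split_ifs <;> ring
      simp only [h11]
      rw [← mul_sum, ← sum_filter, filter_mem_eq_inter, univ_inter, ← mul_assoc]
      congr 1
      field_simp
    rw [h10]
    have h12 := mul_le_mul_of_nonneg_left h9.1 hr0.le
    linarith
  rw [hsplit] at hup
  have hring : (κ + η) * wY H c x Y ^ 2 = κ * wY H c x Y ^ 2 + η * wY H c x Y ^ 2 := by ring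
  linarith

open Classical in
/-- The number of bad flags. -/
theorem bad_total (s : Setting r α H c M π Q ε φ) {η δ θ : ℝ} (hη : 0 < η) (hδ : 0 < δ)
    (hθ : 0 < θ) (hφ : 0 ≤ φ) :
    ∑ x, wY H c x (univ.filter (fun y => bad H (stp (adj H c) π) (α / 2 + η) x y)) ≤
      (δ + θ) * (Fintype.card V : ℝ) ^ 2 + 1 / (θ * η) * ((M : ℝ) ^ 2 / δ *
        ((Fintype.card V : ℝ) * (r : ℝ) ^ 3 + r * φ * (Fintype.card V : ℝ) ^ 2) +
          r * (ε * (Fintype.card V : ℝ) ^ 2)) := by
  set W := stp (adj H c) π with hW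
  set κ : ℝ := α / 2 with hκ
  set n : ℝ := (Fintype.card V : ℝ) with hn
  set Y : V → ℕ → Finset V := fun x j => Yb H W (κ + η) π x j with hY
  have hM : (0 : ℝ) < M := by
    have := s.M1
    exact_mod_cast this
  have hr0 : (0 : ℝ) ≤ r := Nat.cast_nonneg _
  have hn0 : 0 ≤ n := Nat.cast_nonneg _
  have h1 : ∀ x, wY H c x (univ.filter (fun y => bad H W (κ + η) x y)) =
      ∑ j ∈ range M, wY H c x (Y x j) := by
    intro x
    unfold wY
    rw [← sum_fiberwise_of_maps_to (s := univ.filter (fun y => bad H W (κ + η) x y))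
      (t := range M) (g := π) (fun y _ => mem_range.2 (s.lt y))]
    refine sum_congr rfl fun j _ => ?_
    refine sum_congr ?_ fun _ _ => rfl
    ext y
    simp only [hY, Yb, mem_filter, mem_univ, true_and]
  simp only [h1]
  rw [sum_comm]
  set D : ℕ → ℝ := fun j => ∑ z, ∑ y ∈ cell π j, |Q z y - W z y| with hD
  have hDsum : ∑ j ∈ range M, D j ≤ ε * n ^ 2 := by
    have h3 : ∑ j ∈ range M, D j = ∑ p : V × V, |Q p.1 p.2 - W p.1 p.2| := by
      simp only [hD]
      rw [sum_comm, Fintype.sum_prod_type]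
      refine sum_congr rfl fun z _ => ?_
      exact sum_fiberwise_of_maps_to (fun y _ => mem_range.2 (s.lt y)) _
    rw [h3]
    exact s.small
  have hD0 : ∀ j, 0 ≤ D j := fun j => sum_nonneg fun z _ => sum_nonneg fun y _ => abs_nonneg _
  have hcsum : ∑ j ∈ range M, ((cell π j).card : ℝ) = n := by
    have h4 := card_eq_sum_card_fiberwise (s := (univ : Finset V)) (t := range M) (f := π)
      (fun y _ => mem_coe.2 (mem_range.2 (s.lt y)))
    rw [hn, ← card_univ, h4]
    push_cast
    rfl
  set P : ℝ := n * (r : ℝ) ^ 3 + r * φ * n ^ 2 with hP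
  have hP0 : 0 ≤ P := by
    rw [hP]
    positivity
  have hw0 : ∀ x j, 0 ≤ wY H c x (Y x j) := fun x j => sum_nonneg fun y _ => s.hyp.adj_nonneg x y
  have hYc : ∀ x j, wY H c x (Y x j) ≤ ((cell π j).card : ℝ) := by
    intro x j
    have h2 : Y x j ⊆ cell π j := by
      intro y hy
      simp only [hY, Yb, mem_filter, mem_univ, true_and] at hy ⊢
      exact hy.2
    calc wY H c x (Y x j) ≤ ∑ y ∈ Y x j, (1 : ℝ) := sum_le_sum fun y _ => s.hyp.adj_le_one x y
      _ = ((Y x j).card : ℝ) := by simp
      _ ≤ _ := by exact_mod_cast card_le_card h2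
  have key : ∀ j ∈ range M, ∑ x, wY H c x (Y x j) ≤
      δ / M * n ^ 2 + θ * n * ((cell π j).card : ℝ) +
        1 / (θ * η) * (M / δ * P + r * D j) := by
    intro j _
    set q : ℝ := ((cell π j).card : ℝ) with hq
    have hc0 : 0 ≤ q := Nat.cast_nonneg _
    have hlast : 0 ≤ 1 / (θ * η) * (M / δ * P + r * D j) := by
      have := hD0 j
      positivity
    by_cases hsmall : q ≤ δ / M * n
    · have h5 : ∑ x, wY H c x (Y x j) ≤ n * q := by
        calc ∑ x, wY H c x (Y x j) ≤ ∑ x : V, q := sum_le_sum fun x _ => hYc x j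
          _ = n * q := by rw [sum_const, card_univ, nsmul_eq_mul]
      have h6 : n * q ≤ n * (δ / M * n) := mul_le_mul_of_nonneg_left hsmall hn0
      have h7 : 0 ≤ θ * n * q := by positivity
      have h8 : n * (δ / M * n) = δ / M * n ^ 2 := by ring
      linarith
    · push Not at hsmall
      have hcpos : 0 < q := lt_of_le_of_lt (by positivity) hsmall
      have h5 : ∀ x, wY H c x (Y x j) ≤
          θ * q + 1 / (θ * η * q) * (η * wY H c x (Y x j) ^ 2) := by
        intro x
        set u : ℝ := wY H c x (Y x j) with hu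
        have hu0 : 0 ≤ u := hw0 x j
        have h6 : 1 / (θ * η * q) * (η * u ^ 2) = u ^ 2 / (θ * q) := by
          field_simp
        rw [h6]
        by_cases h7 : u ≤ θ * q
        · have : 0 ≤ u ^ 2 / (θ * q) := by positivity
          linarith
        · push Not at h7
          have h8 : u ≤ u ^ 2 / (θ * q) := by
            rw [le_div_iff₀ (by positivity), sq]
            exact mul_le_mul_of_nonneg_left h7.le hu0
          have h9 : 0 ≤ θ * q := by positivity
          linarith
      have h6 : ∑ x, η * wY H c x (Y x j) ^ 2 ≤ n * P + r * q * D j := by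
        calc ∑ x, η * wY H c x (Y x j) ^ 2
            ≤ ∑ x, (P + ∑ z, zeta H c x (Y x j) z * ∑ y ∈ cell π j, |Q z y - W z y|) :=
              sum_le_sum fun x _ => bad_cell s x j
          _ = n * P + ∑ z, (∑ x, zeta H c x (Y x j) z) * ∑ y ∈ cell π j, |Q z y - W z y| := by
              rw [sum_add_distrib, sum_const, card_univ, nsmul_eq_mul, sum_comm]
              congr 1
              exact sum_congr rfl fun z _ => by rw [sum_mul]
          _ ≤ n * P + ∑ z, (r * q) * ∑ y ∈ cell π j, |Q z y - W z y| := by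
              refine add_le_add le_rfl (sum_le_sum fun z _ => ?_)
              refine mul_le_mul_of_nonneg_right ?_ (sum_nonneg fun _ _ => abs_nonneg _)
              refine s.hyp.sum_x_zeta π j (fun x => Y x j) ?_ z
              intro x y hy
              simp only [hY, Yb, mem_filter, mem_univ, true_and] at hy
              exact hy.2
          _ = n * P + r * q * D j := by rw [← mul_sum]
      have h7 : ∑ x, wY H c x (Y x j) ≤ n * (θ * q) + 1 / (θ * η * q) * (n * P + r * q * D j) := by
        calc ∑ x, wY H c x (Y x j)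
            ≤ ∑ x, (θ * q + 1 / (θ * η * q) * (η * wY H c x (Y x j) ^ 2)) :=
              sum_le_sum fun x _ => h5 x
          _ = n * (θ * q) + 1 / (θ * η * q) * ∑ x, η * wY H c x (Y x j) ^ 2 := by
              rw [sum_add_distrib, sum_const, card_univ, nsmul_eq_mul, mul_sum]
          _ ≤ _ := by
              refine add_le_add le_rfl (mul_le_mul_of_nonneg_left h6 (by positivity))
      have h8 : 1 / (θ * η * q) * (n * P + r * q * D j) ≤ 1 / (θ * η) * (M / δ * P + r * D j) := by
        have h9 : 1 / (θ * η * q) * (n * P + r * q * D j) =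
            1 / (θ * η) * (n / q * P + r * D j) := by
          field_simp
        rw [h9]
        refine mul_le_mul_of_nonneg_left ?_ (by positivity)
        have h10 : n / q ≤ M / δ := by
          rw [div_le_div_iff₀ hcpos hδ]
          have h11 : δ / M * n = δ * n / M := by ring
          rw [h11, div_lt_iff₀ hM] at hsmall
          linarith
        have := mul_le_mul_of_nonneg_right h10 hP0
        linarith
      have h9 : 0 ≤ δ / M * n ^ 2 := by positivity
      have h10 : n * (θ * q) = θ * n * q := by ring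
      linarith
  calc ∑ j ∈ range M, ∑ x, wY H c x (Y x j)
      ≤ ∑ j ∈ range M, (δ / M * n ^ 2 + θ * n * ((cell π j).card : ℝ) +
        1 / (θ * η) * (M / δ * P + r * D j)) := sum_le_sum key
    _ = δ * n ^ 2 + θ * n * n + 1 / (θ * η) * (M * (M / δ * P) + r * ∑ j ∈ range M, D j) := by
        rw [sum_add_distrib, sum_add_distrib, sum_const, card_range, nsmul_eq_mul, ← mul_sum,
          hcsum, ← mul_sum, sum_add_distrib, sum_const, card_range, nsmul_eq_mul, ← mul_sum]
        have : (M : ℝ) * (δ / M * n ^ 2) = δ * n ^ 2 := by field_simp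
        rw [this]
    _ ≤ δ * n ^ 2 + θ * n * n + 1 / (θ * η) * (M * (M / δ * P) + r * (ε * n ^ 2)) := by
        have := mul_le_mul_of_nonneg_left hDsum hr0
        gcongr
    _ = _ := by
        have : (M : ℝ) * (M / δ * P) = M ^ 2 / δ * P := by ring
        rw [this]
        ring

end Pool.Agent.H62.BS
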