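import Pool.Agent.H62.BR.Reg

/-!
# Weighted linear uniform hypergraphs with few cross adjacencies in the links
-/

set_option autoImplicit false
set_option linter.unusedSectionVars false

namespace Pool.Agent.H62.BS

open Finset Pool.Agent.H62.BR

variable {V : Type} [Fintype V] [DecidableEq V]

/-- The edges at `x`. -/
abbrev ea (H : Finset (Finset V)) (x : V) : Finset (Finset V) := H.filter (fun E => x ∈ E)

/-- The weighted adjacency function of the shadow. -/
noncomputable def adj (H : Finset (Finset V)) (c : Finset V → ℝ) (x y : V) : ℝ :=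
  if x = y then 0 else ∑ E ∈ H.filter (fun E => x ∈ E ∧ y ∈ E), c E

/-- `r`-uniform linear hypergraphs with weights in `[0, 1]`, in which the cross adjacency of two
edges that meet is at most `α`. -/
structure Hyp (r : ℕ) (α : ℝ) (H : Finset (Finset V)) (c : Finset V → ℝ) : Prop where
  unif : ∀ E ∈ H, E.card = r
  lin : ∀ E ∈ H, ∀ F ∈ H, E ≠ F → (E ∩ F).card ≤ 1
  c0 : ∀ E, 0 ≤ c E
  c1 : ∀ E, c E ≤ 1
  a0 : 0 ≤ α
  cross : ∀ E ∈ H, ∀ F ∈ H, E ≠ F → ∀ x, x ∈ E → x ∈ F →
    ∑ y ∈ E.erase x, ∑ w ∈ F.erase x, adj H c y w ≤ α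

variable {r : ℕ} {α : ℝ} {H : Finset (Finset V)} {c : Finset V → ℝ}

lemma Hyp.adj_nonneg (h : Hyp r α H c) (x y : V) : 0 ≤ adj H c x y := by
  unfold adj
  split_ifs
  · exact le_rfl
  · exact sum_nonneg fun E _ => h.c0 E

lemma Hyp.eq_of_mem (h : Hyp r α H c) {E F : Finset V} (hE : E ∈ H) (hF : F ∈ H) {x y : V}
    (hxy : x ≠ y) (h1 : x ∈ E) (h2 : y ∈ E) (h3 : x ∈ F) (h4 : y ∈ F) : E = F := by
  by_contra hne
  have h5 := h.lin E hE F hF hne
  have h6 : ({x, y} : Finset V) ⊆ E ∩ F := by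
    intro z hz
    simp only [mem_insert, mem_singleton] at hz
    rcases hz with rfl | rfl
    · exact mem_inter.2 ⟨h1, h3⟩
    · exact mem_inter.2 ⟨h2, h4⟩
  have h7 := card_le_card h6
  rw [card_pair hxy] at h7
  omega

lemma Hyp.adj_le_one (h : Hyp r α H c) (x y : V) : adj H c x y ≤ 1 := by
  unfold adj
  split_ifs with hxy
  · exact zero_le_one
  · have h1 : (H.filter (fun E => x ∈ E ∧ y ∈ E)).card ≤ 1 := by
      rw [card_le_one]
      intro E hE F hF
      rw [mem_filter] at hE hF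
      exact h.eq_of_mem hE.1 hF.1 hxy hE.2.1 hE.2.2 hF.2.1 hF.2.2
    calc ∑ E ∈ H.filter (fun E => x ∈ E ∧ y ∈ E), c E
        ≤ ∑ E ∈ H.filter (fun E => x ∈ E ∧ y ∈ E), (1 : ℝ) := sum_le_sum fun E _ => h.c1 E
      _ = ((H.filter (fun E => x ∈ E ∧ y ∈ E)).card : ℝ) := by simp
      _ ≤ 1 := by exact_mod_cast h1

lemma adj_symm (H : Finset (Finset V)) (c : Finset V → ℝ) (x y : V) :
    adj H c x y = adj H c y x := by
  unfold adj
  have h1 : H.filter (fun E => x ∈ E ∧ y ∈ E) = H.filter (fun E => y ∈ E ∧ x ∈ E) :=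
    filter_congr fun E _ => and_comm
  rw [h1]
  by_cases hxy : x = y
  · rw [if_pos hxy, if_pos hxy.symm]
  · rw [if_neg hxy, if_neg (Ne.symm hxy)]

lemma sum_adj (H : Finset (Finset V)) (c : Finset V → ℝ) (x : V) (g : V → ℝ) :
    ∑ y, adj H c x y * g y = ∑ E ∈ ea H x, c E * ∑ y ∈ E.erase x, g y := by
  have h1 : ∀ y, adj H c x y * g y =
      ∑ E ∈ H, if x ∈ E then (if y ∈ E.erase x then c E * g y else 0) else 0 := by
    intro y
    unfold adj
    by_cases hxy : x = y
    · subst hxy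
      simp
    · rw [if_neg hxy, sum_filter, sum_mul]
      refine sum_congr rfl fun E _ => ?_
      by_cases h2 : x ∈ E <;> by_cases h3 : y ∈ E <;> simp [h2, h3, Ne.symm hxy]
  simp only [h1]
  rw [sum_comm, sum_filter]
  refine sum_congr rfl fun E _ => ?_
  split_ifs with h2
  · rw [← sum_filter, filter_mem_eq_inter, univ_inter, mul_sum]
  · simp

/-- The weighted degree. -/
noncomputable def m (H : Finset (Finset V)) (c : Finset V → ℝ) (x : V) : ℝ := ∑ E ∈ ea H x, c E

lemma Hyp.m_nonneg (h : Hyp r α H c) (x : V) : 0 ≤ m H c x := sum_nonneg fun E _ => h.c0 E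

lemma Hyp.card_erase_real (h : Hyp r α H c) {E : Finset V} (hE : E ∈ H) {x : V} (hx : x ∈ E) :
    ((E.erase x).card : ℝ) = (r : ℝ) - 1 := by
  rw [card_erase_of_mem hx, h.unif E hE]
  have : 1 ≤ r := by
    rw [← h.unif E hE]
    exact card_pos.2 ⟨x, hx⟩
  push_cast [Nat.cast_sub this]
  ring

lemma Hyp.sum_adj_one (h : Hyp r α H c) (x : V) :
    ∑ y, adj H c x y = ((r : ℝ) - 1) * m H c x := by
  have h1 := sum_adj H c x (fun _ => 1)
  simp only [mul_one] at h1
  rw [h1, m, mul_sum]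
  refine sum_congr rfl fun E hE => ?_
  rw [mem_filter] at hE
  rw [sum_const, nsmul_eq_mul, mul_one, h.card_erase_real hE.1 hE.2]
  ring

lemma Hyp.m_le (h : Hyp r α H c) (hr : 2 ≤ r) (x : V) : m H c x ≤ (Fintype.card V : ℝ) := by
  have h1 := h.sum_adj_one x
  have h2 : ∑ y, adj H c x y ≤ ∑ y : V, (1 : ℝ) := sum_le_sum fun y _ => h.adj_le_one x y
  rw [h1] at h2
  simp only [sum_const, card_univ, nsmul_eq_mul, mul_one] at h2
  have h3 := h.m_nonneg x
  have h4 : (2 : ℝ) ≤ r := by exact_mod_cast hr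
  nlinarith

lemma sum_m_mul (H : Finset (Finset V)) (c : Finset V → ℝ) (g : V → ℝ) :
    ∑ x, m H c x * g x = ∑ E ∈ H, c E * ∑ x ∈ E, g x := by
  have h1 : ∀ x, m H c x * g x = ∑ E ∈ H, if x ∈ E then c E * g x else 0 := by
    intro x
    rw [m, ← sum_filter, sum_mul]
  simp only [h1]
  rw [sum_comm]
  refine sum_congr rfl fun E _ => ?_
  rw [← sum_filter, filter_mem_eq_inter, univ_inter, mul_sum]

lemma Hyp.sum_m (h : Hyp r α H c) : ∑ x, m H c x = r * ∑ E ∈ H, c E := by
  have h1 := sum_m_mul H c (fun _ => 1)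
  simp only [mul_one] at h1
  rw [h1, mul_sum]
  refine sum_congr rfl fun E hE => ?_
  rw [sum_const, nsmul_eq_mul, mul_one, h.unif E hE]
  ring

/-- The number of triangles. -/
lemma Hyp.tri (h : Hyp r α H c) (x : V) :
    ∑ y, ∑ w, adj H c x y * adj H c x w * adj H c y w ≤
      α * m H c x ^ 2 + ((r : ℝ) - 1) ^ 2 * m H c x := by
  have h1 : ∑ y, ∑ w, adj H c x y * adj H c x w * adj H c y w =
      ∑ E ∈ ea H x, c E * ∑ F ∈ ea H x, c F *
        ∑ y ∈ E.erase x, ∑ w ∈ F.erase x, adj H c y w := by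
    have h2 : ∀ y, ∑ w, adj H c x y * adj H c x w * adj H c y w =
        adj H c x y * ∑ F ∈ ea H x, c F * ∑ w ∈ F.erase x, adj H c y w := by
      intro y
      rw [← sum_adj H c x (fun w => adj H c y w), mul_sum]
      exact sum_congr rfl fun w _ => by ring
    simp only [h2]
    rw [sum_adj H c x (fun y => ∑ F ∈ ea H x, c F * ∑ w ∈ F.erase x, adj H c y w)]
    refine sum_congr rfl fun E _ => ?_
    rw [sum_comm]
    simp only [mul_sum]
  rw [h1]
  have h3 : ∀ E ∈ ea H x, ∑ F ∈ ea H x, c F * ∑ y ∈ E.erase x, ∑ w ∈ F.erase x, adj H c y w ≤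
      α * m H c x + ((r : ℝ) - 1) ^ 2 := by
    intro E hE
    rw [← Finset.add_sum_erase _ _ hE]
    have h4 : c E * ∑ y ∈ E.erase x, ∑ w ∈ E.erase x, adj H c y w ≤ ((r : ℝ) - 1) ^ 2 := by
      rw [mem_filter] at hE
      have h5 : ∑ y ∈ E.erase x, ∑ w ∈ E.erase x, adj H c y w ≤ ((r : ℝ) - 1) ^ 2 := by
        calc ∑ y ∈ E.erase x, ∑ w ∈ E.erase x, adj H c y w
            ≤ ∑ y ∈ E.erase x, ∑ w ∈ E.erase x, (1 : ℝ) :=
              sum_le_sum fun y _ => sum_le_sum fun w _ => h.adj_le_one y w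
          _ = ((r : ℝ) - 1) ^ 2 := by
              simp only [sum_const, nsmul_eq_mul, mul_one]
              rw [h.card_erase_real hE.1 hE.2]
              ring
      calc c E * ∑ y ∈ E.erase x, ∑ w ∈ E.erase x, adj H c y w
          ≤ 1 * ∑ y ∈ E.erase x, ∑ w ∈ E.erase x, adj H c y w :=
            mul_le_mul_of_nonneg_right (h.c1 E)
              (sum_nonneg fun y _ => sum_nonneg fun w _ => h.adj_nonneg y w)
        _ ≤ _ := by rw [one_mul]; exact h5
    have h5 : ∑ F ∈ (ea H x).erase E, c F * ∑ y ∈ E.erase x, ∑ w ∈ F.erase x, adj H c y w ≤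
        α * m H c x := by
      calc ∑ F ∈ (ea H x).erase E, c F * ∑ y ∈ E.erase x, ∑ w ∈ F.erase x, adj H c y w
          ≤ ∑ F ∈ (ea H x).erase E, c F * α := by
            refine sum_le_sum fun F hF => ?_
            rw [mem_erase, mem_filter] at hF
            rw [mem_filter] at hE
            exact mul_le_mul_of_nonneg_left
              (h.cross E hE.1 F hF.2.1 (Ne.symm hF.1) x hE.2 hF.2.2) (h.c0 F)
        _ ≤ ∑ F ∈ ea H x, c F * α := by
            refine sum_le_sum_of_subset_of_nonneg (erase_subset _ _) fun F _ _ => ?_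
            exact mul_nonneg (h.c0 F) h.a0
        _ = _ := by
            rw [← sum_mul, m]
            ring
    linarith
  calc _ ≤ ∑ E ∈ ea H x, c E * (α * m H c x + ((r : ℝ) - 1) ^ 2) :=
        sum_le_sum fun E hE => mul_le_mul_of_nonneg_left (h3 E hE) (h.c0 E)
    _ = _ := by
        rw [← sum_mul]
        rw [m]
        ring

/-- The part of an edge at `x` which lies in `Y`. -/
abbrev yp (x : V) (Y E : Finset V) : Finset V := (E.erase x).filter (fun y => y ∈ Y)

lemma sum_Y (H : Finset (Finset V)) (c : Finset V → ℝ) (x : V) (Y : Finset V) (g : V → ℝ) :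
    ∑ E ∈ ea H x, c E * ∑ y ∈ yp x Y E, g y = ∑ y ∈ Y, adj H c x y * g y := by
  have h1 := sum_adj H c x (fun y => if y ∈ Y then g y else 0)
  have h2 : ∀ y, adj H c x y * (if y ∈ Y then g y else 0) =
      if y ∈ Y then adj H c x y * g y else 0 := by
    intro y
    split_ifs <;> simp
  simp only [h2] at h1
  rw [← sum_filter, filter_mem_eq_inter, univ_inter] at h1
  rw [h1]
  refine sum_congr rfl fun E _ => ?_
  rw [sum_filter]

/-- The weighted size of `Y` at `x`. -/
noncomputable def wY (H : Finset (Finset V)) (c : Finset V → ℝ) (x : V) (Y : Finset V) : ℝ :=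
  ∑ y ∈ Y, adj H c x y

/-- the sum over a set `Y` of vertices. -/
lemma Hyp.link_Y (h : Hyp r α H c) (hr : 3 ≤ r) (x : V) (Y : Finset V) :
    ∑ E ∈ ea H x, c E * ∑ y ∈ yp x Y E, ∑ z ∈ (E.erase x).erase y,
        ∑ y' ∈ Y, adj H c x y' * adj H c z y' ≤
      α / 2 * wY H c x Y ^ 2 + (Fintype.card V : ℝ) * (r : ℝ) ^ 3 := by
  set b : Finset V → Finset V → ℝ := fun E F =>
    ∑ y ∈ yp x Y E, ∑ y' ∈ yp x Y F, ∑ z ∈ (E.erase x).erase y, adj H c z y' with hb
  have h1 : ∑ E ∈ ea H x, c E * ∑ y ∈ yp x Y E, ∑ z ∈ (E.erase x).erase y,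
        ∑ y' ∈ Y, adj H c x y' * adj H c z y' =
      ∑ E ∈ ea H x, ∑ F ∈ ea H x, c E * c F * b E F := by
    refine sum_congr rfl fun E _ => ?_
    have h2 : ∀ F, c E * c F * b E F = c E * (∑ y ∈ yp x Y E, (c F * ∑ y' ∈ yp x Y F,
        ∑ z ∈ (E.erase x).erase y, adj H c z y')) := by
      intro F
      simp only [hb]
      rw [← mul_sum]
      ring
    simp only [h2]
    rw [← mul_sum, sum_comm]
    congr 1
    refine sum_congr rfl fun y _ => ?_
    rw [sum_Y H c x Y (fun y' => ∑ z ∈ (E.erase x).erase y, adj H c z y'), sum_comm]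
    simp only [mul_sum]
  rw [h1]
  have he3 := h.a0
  -- different edges
  have hdiff : ∀ E ∈ ea H x, ∀ F ∈ ea H x, E ≠ F → b E F + b F E ≤
      α * (((yp x Y E).card : ℝ) * ((yp x Y F).card : ℝ)) := by
    intro E hE F hF hEF
    have h2 : b E F + b F E = ∑ y ∈ yp x Y E, ∑ y' ∈ yp x Y F,
        (∑ z ∈ (E.erase x).erase y, adj H c z y' + ∑ z ∈ (F.erase x).erase y', adj H c z y) := by
      simp only [hb]
      rw [sum_comm (s := yp x Y F)]
      rw [← sum_add_distrib]
      refine sum_congr rfl fun y _ => ?_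
      rw [← sum_add_distrib]
    rw [h2]
    rw [mem_filter] at hE hF
    have h3 : ∀ y ∈ yp x Y E, ∀ y' ∈ yp x Y F,
        ∑ z ∈ (E.erase x).erase y, adj H c z y' + ∑ z ∈ (F.erase x).erase y', adj H c z y ≤
          α := by
      intro y hy y' hy'
      refine le_trans ?_ (h.cross E hE.1 F hF.1 hEF x hE.2 hF.2)
      rw [mem_filter] at hy hy'
      rw [← Finset.add_sum_erase (E.erase x) _ hy.1]
      have h4 : ∑ z ∈ (F.erase x).erase y', adj H c z y ≤ ∑ w ∈ F.erase x, adj H c y w := by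
        calc ∑ z ∈ (F.erase x).erase y', adj H c z y = ∑ z ∈ (F.erase x).erase y', adj H c y z :=
              sum_congr rfl fun z _ => adj_symm H c z y
          _ ≤ _ := sum_le_sum_of_subset_of_nonneg (erase_subset _ _)
              fun w _ _ => h.adj_nonneg y w
      have h5 : ∑ z ∈ (E.erase x).erase y, adj H c z y' ≤
          ∑ z ∈ (E.erase x).erase y, ∑ w ∈ F.erase x, adj H c z w :=
        sum_le_sum fun z _ => single_le_sum (f := fun w => adj H c z w)
          (fun w _ => h.adj_nonneg z w) hy'.1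
      linarith
    calc _ ≤ ∑ y ∈ yp x Y E, ∑ y' ∈ yp x Y F, α :=
          sum_le_sum fun y hy => sum_le_sum fun y' hy' => h3 y hy y' hy'
      _ = _ := by
          simp only [sum_const, nsmul_eq_mul]
          ring
  have hsame : ∀ E ∈ ea H x, b E E ≤ (r : ℝ) ^ 3 := by
    intro E hE
    rw [mem_filter] at hE
    have hc : ∀ T ⊆ E, (T.card : ℝ) ≤ r := by
      intro T hT
      rw [← h.unif E hE.1]
      exact_mod_cast card_le_card hT
    have hr0 : (0 : ℝ) ≤ r := Nat.cast_nonneg _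
    have hy1 : ((yp x Y E).card : ℝ) ≤ r :=
      hc _ ((filter_subset _ _).trans (erase_subset _ _))
    simp only [hb]
    calc ∑ y ∈ yp x Y E, ∑ y' ∈ yp x Y E, ∑ z ∈ (E.erase x).erase y, adj H c z y'
        ≤ ∑ y ∈ yp x Y E, ∑ y' ∈ yp x Y E, (r : ℝ) := by
          refine sum_le_sum fun y _ => sum_le_sum fun y' _ => ?_
          calc ∑ z ∈ (E.erase x).erase y, adj H c z y' ≤ ∑ z ∈ (E.erase x).erase y, (1 : ℝ) :=
                sum_le_sum fun z _ => h.adj_le_one z y'
            _ = (((E.erase x).erase y).card : ℝ) := by simp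
            _ ≤ r := hc _ ((erase_subset _ _).trans (erase_subset _ _))
      _ = ((yp x Y E).card : ℝ) * (((yp x Y E).card : ℝ) * r) := by
          simp only [sum_const, nsmul_eq_mul]
      _ ≤ r * (r * r) := by
          gcongr
      _ = (r : ℝ) ^ 3 := by ring
  have hsum : 2 * ∑ E ∈ ea H x, ∑ F ∈ ea H x, c E * c F * b E F =
      ∑ E ∈ ea H x, ∑ F ∈ ea H x, c E * c F * (b E F + b F E) := by
    have h6 : ∑ E ∈ ea H x, ∑ F ∈ ea H x, c E * c F * b F E =
        ∑ E ∈ ea H x, ∑ F ∈ ea H x, c E * c F * b E F := by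
      rw [sum_comm]
      refine sum_congr rfl fun E _ => sum_congr rfl fun F _ => ?_
      ring
    simp only [mul_add, sum_add_distrib]
    rw [h6]
    ring
  have hbound : ∀ E ∈ ea H x, ∀ F ∈ ea H x, c E * c F * (b E F + b F E) ≤
      α * ((c E * ((yp x Y E).card : ℝ)) * (c F * ((yp x Y F).card : ℝ))) +
        (if E = F then 2 * (r : ℝ) ^ 3 * c E else 0) := by
    intro E hE F hF
    have hcE := h.c0 E
    have hcF := h.c0 F
    by_cases hEF : E = F
    · subst hEF
      rw [if_pos rfl]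
      have h7 := hsame E hE
      have h8 : 0 ≤ α * ((c E * ((yp x Y E).card : ℝ)) * (c E * ((yp x Y E).card : ℝ))) := by
        positivity
      have h9 : c E * c E * (b E E + b E E) ≤ c E * c E * (2 * (r : ℝ) ^ 3) :=
        mul_le_mul_of_nonneg_left (by linarith) (by positivity)
      have h10 : c E * c E * (2 * (r : ℝ) ^ 3) ≤ c E * 1 * (2 * (r : ℝ) ^ 3) := by
        have := h.c1 E
        gcongr
      linarith
    · rw [if_neg hEF, add_zero]
      have h7 := mul_le_mul_of_nonneg_left (hdiff E hE F hF hEF) (mul_nonneg hcE hcF)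
      refine h7.trans (le_of_eq ?_)
      ring
  have hYc : ∑ E ∈ ea H x, c E * ((yp x Y E).card : ℝ) = wY H c x Y := by
    have := sum_Y H c x Y (fun _ => 1)
    simp only [sum_const, nsmul_eq_mul, mul_one] at this
    exact this
  have htot : ∑ E ∈ ea H x, ∑ F ∈ ea H x, c E * c F * (b E F + b F E) ≤
      α * wY H c x Y ^ 2 + 2 * (r : ℝ) ^ 3 * m H c x := by
    calc _ ≤ ∑ E ∈ ea H x, ∑ F ∈ ea H x,
          (α * ((c E * ((yp x Y E).card : ℝ)) * (c F * ((yp x Y F).card : ℝ))) +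
            (if E = F then 2 * (r : ℝ) ^ 3 * c E else 0)) :=
          sum_le_sum fun E hE => sum_le_sum fun F hF => hbound E hE F hF
      _ = α * ((∑ E ∈ ea H x, c E * ((yp x Y E).card : ℝ)) *
            (∑ F ∈ ea H x, c F * ((yp x Y F).card : ℝ))) +
            ∑ E ∈ ea H x, ∑ F ∈ ea H x, (if E = F then 2 * (r : ℝ) ^ 3 * c E else 0) := by
          rw [sum_mul_sum]
          simp only [sum_add_distrib, mul_sum]
      _ = _ := by
          rw [hYc]
          have h9 : ∀ E ∈ ea H x, ∑ F ∈ ea H x, (if E = F then 2 * (r : ℝ) ^ 3 * c E else 0) =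
              2 * (r : ℝ) ^ 3 * c E := by
            intro E hE
            rw [sum_ite_eq, if_pos hE]
          rw [sum_congr rfl h9, ← mul_sum, m]
          ring
  have hm := h.m_le (by omega) x
  have hr3 : (0 : ℝ) ≤ (r : ℝ) ^ 3 := by positivity
  nlinarith

end Pool.Agent.H62.BS
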