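import Pool.Agent.H62.BS.Flags

/-!
# The density bound
-/

set_option autoImplicit false
set_option linter.unusedSectionVars false

namespace Pool.Agent.H62.BS

open Finset Pool.Agent.H62.BR

variable {V : Type} [Fintype V] [DecidableEq V]

variable {r : ℕ} {α : ℝ} {H : Finset (Finset V)} {c : Finset V → ℝ} {M : ℕ} {π : V → ℕ}
  {Q : V → V → ℝ} {ε φ : ℝ}

lemma small_abs (s : Setting r α H c M π Q ε φ) (u : V → V → ℝ) (hu : ∀ x y, |u x y| ≤ 1) :
    |∑ x, ∑ y, (Q x y - stp (adj H c) π x y) * u x y| ≤ ε * (Fintype.card V : ℝ) ^ 2 := by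
  refine le_trans ?_ s.small
  rw [Fintype.sum_prod_type]
  refine (abs_sum_le_sum_abs _ _).trans (sum_le_sum fun x _ => ?_)
  refine (abs_sum_le_sum_abs _ _).trans (sum_le_sum fun y _ => ?_)
  rw [abs_mul]
  calc |Q x y - stp (adj H c) π x y| * |u x y| ≤ |Q x y - stp (adj H c) π x y| * 1 :=
        mul_le_mul_of_nonneg_left (hu x y) (abs_nonneg _)
    _ = _ := mul_one _

lemma approx (s : Setting r α H c M π Q ε φ) (a b : V → ℝ)
    (a0 : ∀ x, 0 ≤ a x) (a1 : ∀ x, a x ≤ 1) (b0 : ∀ x, 0 ≤ b x) (b1 : ∀ x, b x ≤ 1) :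
    |∑ x, ∑ y, (adj H c x y - stp (adj H c) π x y) * (a x * b y)| ≤
      (ε + φ) * (Fintype.card V : ℝ) ^ 2 := by
  have h1 := s.cut.fn_abs a b a0 a1 b0 b1
  have h2 := small_abs s (fun x y => a x * b y) (fun x y => by
    rw [abs_of_nonneg (mul_nonneg (a0 x) (b0 y))]
    exact mul_le_one₀ (a1 x) (b0 y) (b1 y))
  have h3 : ∑ x, ∑ y, (adj H c x y - stp (adj H c) π x y) * (a x * b y) =
      ∑ x, ∑ y, (adj H c x y - Q x y) * (a x * b y) +
        ∑ x, ∑ y, (Q x y - stp (adj H c) π x y) * (a x * b y) := by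
    rw [← sum_add_distrib]
    refine sum_congr rfl fun x _ => ?_
    rw [← sum_add_distrib]
    exact sum_congr rfl fun y _ => by ring
  rw [h3]
  refine (abs_add_le _ _).trans ?_
  rw [add_mul]
  linarith

/-- the flag bound at a vertex. -/
lemma flag_bound (s : Setting r α H c M π Q ε φ) {η : ℝ} (hη : 0 ≤ η) (x : V) (B : Finset V)
    (hB : ∀ x', bad H (stp (adj H c) π) (α / 2 + η) x' x → x' ∈ B) :
    ((r : ℝ) - 2) * ∑ w, adj H c x w * stp (adj H c) π x w ≤
      ((r : ℝ) - 1) * (α / 2 + η) * m H c x + ((r : ℝ) - 2) * wY H c x B := by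
  set W := stp (adj H c) π with hW
  set t : ℝ := α / 2 + η with ht
  have W0 : ∀ a b, 0 ≤ W a b := stp_nonneg s.hyp.adj_nonneg π
  have W1 : ∀ a b, W a b ≤ 1 := stp_le_one s.hyp.adj_le_one π
  have hr3 : (3 : ℝ) ≤ r := by exact_mod_cast s.hr
  rw [sum_adj H c x (fun w => W x w), mul_sum]
  have h1 : ∀ E ∈ ea H x, ((r : ℝ) - 2) * (c E * ∑ w ∈ E.erase x, W x w) ≤
      ((r : ℝ) - 1) * t * c E +
        ((r : ℝ) - 2) * (c E * ∑ x' ∈ E.erase x, (if x' ∈ B then 1 else 0)) := by
    intro E hE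
    rw [mem_filter] at hE
    set S := ∑ w ∈ E.erase x, W x w with hS
    have h2 : ∀ x' ∈ E.erase x, S - W x x' ≤ t + ((r : ℝ) - 2) * (if x' ∈ B then 1 else 0) := by
      intro x' hx'
      have h3 : ∑ z ∈ (E.erase x').erase x, W x z = S - W x x' := by
        rw [hS, ← Finset.add_sum_erase (E.erase x) (fun w => W x w) hx', erase_right_comm]
        ring
      rw [mem_erase] at hx'
      split_ifs with hb
      · rw [← h3]
        have h4 : ∑ z ∈ (E.erase x').erase x, W x z ≤ (r : ℝ) - 2 := by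
          calc ∑ z ∈ (E.erase x').erase x, W x z ≤ ∑ z ∈ (E.erase x').erase x, (1 : ℝ) :=
                sum_le_sum fun z _ => W1 x z
            _ = (((E.erase x').erase x).card : ℝ) := by simp
            _ = (r : ℝ) - 2 := by
                rw [card_erase_of_mem (mem_erase.2 ⟨Ne.symm hx'.1, hE.2⟩),
                  card_erase_of_mem hx'.2, s.hyp.unif E hE.1, Nat.sub_sub]
                have := s.hr
                push_cast [Nat.cast_sub (by omega : 1 + 1 ≤ r)]
                ring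
        have h5 := s.hyp.a0
        have h6 : 0 ≤ t := by rw [ht]; linarith
        linarith
      · have h4 : ¬ bad H W t x' x := fun h => hb (hB x' h)
        unfold bad at h4
        push Not at h4
        have h5 := h4 E hE.1 hx'.2 hE.2 hx'.1
        rw [h3] at h5
        linarith
    have h6 := sum_le_sum h2
    rw [sum_sub_distrib, sum_add_distrib, sum_const, sum_const, nsmul_eq_mul, nsmul_eq_mul,
      s.hyp.card_erase_real hE.1 hE.2, ← mul_sum, ← hS] at h6
    have h7 : ((r : ℝ) - 2) * S ≤ ((r : ℝ) - 1) * t +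
        ((r : ℝ) - 2) * ∑ x' ∈ E.erase x, (if x' ∈ B then 1 else 0) := by linarith
    have h8 := mul_le_mul_of_nonneg_left h7 (s.hyp.c0 E)
    linarith
  refine (sum_le_sum h1).trans ?_
  rw [sum_add_distrib, ← mul_sum, ← mul_sum, ← sum_adj H c x (fun x' => if x' ∈ B then 1 else 0)]
  have h7 : ∑ y, adj H c x y * (if y ∈ B then (1 : ℝ) else 0) = wY H c x B := by
    have h8 : ∀ y, adj H c x y * (if y ∈ B then (1 : ℝ) else 0) =
        if y ∈ B then adj H c x y else 0 := by
      intro y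
      split_ifs <;> simp
    simp only [h8]
    rw [← sum_filter, filter_mem_eq_inter, univ_inter]
    rfl
  rw [h7]
  exact le_rfl

/-- `∑ m_x W(x,w)^2` against `∑ m_x adj(x,w) W(x,w)`. -/
lemma diag_approx (s : Setting r α H c M π Q ε φ) :
    ∑ x, m H c x * ∑ w, stp (adj H c) π x w ^ 2 ≤
      ∑ x, m H c x * ∑ w, adj H c x w * stp (adj H c) π x w +
        (ε + M * φ) * (Fintype.card V : ℝ) ^ 3 := by
  set W := stp (adj H c) π with hW
  set n : ℝ := (Fintype.card V : ℝ) with hn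
  have W0 : ∀ a b, 0 ≤ W a b := stp_nonneg s.hyp.adj_nonneg π
  have W1 : ∀ a b, W a b ≤ 1 := stp_le_one s.hyp.adj_le_one π
  have hn0 : 0 ≤ n := Nat.cast_nonneg _
  rcases hn0.eq_or_lt with hn0' | hnpos
  · have hemp : IsEmpty V := by
      rw [← Fintype.card_eq_zero_iff]
      rw [hn] at hn0'
      exact_mod_cast hn0'.symm
    simp [← hn0']
  have hm1 : ∀ x, m H c x / n ≤ 1 := by
    intro x
    rw [div_le_one hnpos]
    exact s.hyp.m_le (by have := s.hr; omega) x
  have hm0 : ∀ x, 0 ≤ m H c x / n := fun x => div_nonneg (s.hyp.m_nonneg x) hn0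
  have h1 : ∑ x, m H c x * ∑ w, adj H c x w * W x w - ∑ x, m H c x * ∑ w, W x w ^ 2 =
      n * (∑ x, ∑ w, (adj H c x w - Q x w) * (m H c x / n * W x w) +
        ∑ x, ∑ w, (Q x w - W x w) * (m H c x / n * W x w)) := by
    rw [← sum_sub_distrib, ← sum_add_distrib, mul_sum]
    refine sum_congr rfl fun x _ => ?_
    rw [← mul_sub, ← sum_sub_distrib, ← sum_add_distrib, mul_sum, mul_sum]
    refine sum_congr rfl fun w _ => ?_
    field_simp
    ring
  have h2 : |∑ x, ∑ w, (Q x w - W x w) * (m H c x / n * W x w)| ≤ ε * n ^ 2 := by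
    refine small_abs s (fun x w => m H c x / n * W x w) fun x w => ?_
    rw [abs_of_nonneg (mul_nonneg (hm0 x) (W0 x w))]
    exact mul_le_one₀ (hm1 x) (W0 x w) (W1 x w)
  have h3 : |∑ x, ∑ w, (adj H c x w - Q x w) * (m H c x / n * W x w)| ≤ M * (φ * n ^ 2) := by
    rw [← sum_fiberwise_of_maps_to (s := univ) (t := range M) (g := π)
      (fun x _ => mem_range.2 (s.lt x))]
    refine (abs_sum_le_sum_abs _ _).trans ?_
    have h4 : ∀ i ∈ range M, |∑ x ∈ univ.filter (fun x => π x = i),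
        ∑ w, (adj H c x w - Q x w) * (m H c x / n * W x w)| ≤ φ * n ^ 2 := by
      intro i _
      by_cases hi : ∃ x₀, π x₀ = i
      · obtain ⟨x₀, hx₀⟩ := hi
        have h5 : ∑ x ∈ univ.filter (fun x => π x = i),
            ∑ w, (adj H c x w - Q x w) * (m H c x / n * W x w) =
            ∑ x, ∑ w, (adj H c x w - Q x w) * ((if π x = i then m H c x / n else 0) * W x₀ w) := by
          rw [sum_filter]
          refine sum_congr rfl fun x _ => ?_
          split_ifs with h
          · refine sum_congr rfl fun w _ => ?_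
            have : W x w = W x₀ w := stp_congr _ _ (by rw [h, hx₀]) rfl
            rw [this]
          · simp
        rw [h5]
        refine s.cut.fn_abs _ _ ?_ ?_ (fun w => W0 x₀ w) (fun w => W1 x₀ w)
        · intro x
          split_ifs
          · exact hm0 x
          · exact le_rfl
        · intro x
          split_ifs
          · exact hm1 x
          · exact zero_le_one
      · have h5 : univ.filter (fun x => π x = i) = ∅ := by
          rw [filter_eq_empty_iff]
          intro x _ hx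
          exact hi ⟨x, hx⟩
        rw [h5, sum_empty, abs_zero]
        have h6 := s.cut ∅ ∅
        simpa using h6
    refine (sum_le_sum h4).trans ?_
    rw [sum_const, card_range, nsmul_eq_mul]
  rw [abs_le] at h2 h3
  have h7 : n * (-(M * (φ * n ^ 2)) + -(ε * n ^ 2)) ≤
      ∑ x, m H c x * ∑ w, adj H c x w * W x w - ∑ x, m H c x * ∑ w, W x w ^ 2 := by
    rw [h1]
    exact mul_le_mul_of_nonneg_left (add_le_add h3.1 h2.1) hn0
  have h8 : n * (-(M * (φ * n ^ 2)) + -(ε * n ^ 2)) = -((ε + M * φ) * n ^ 3) := by ring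
  linarith

/-- the codegree term. -/
lemma tri_approx (s : Setting r α H c M π Q ε φ) :
    ∑ x, ∑ y, adj H c x y * ∑ w, stp (adj H c) π x w * stp (adj H c) π y w ≤
      α * ∑ x, m H c x ^ 2 + ((r : ℝ) - 1) ^ 2 * ∑ x, m H c x +
        2 * (ε + φ) * (Fintype.card V : ℝ) ^ 3 := by
  set W := stp (adj H c) π with hW
  set n : ℝ := (Fintype.card V : ℝ) with hn
  have W0 : ∀ a b, 0 ≤ W a b := stp_nonneg s.hyp.adj_nonneg π
  have W1 : ∀ a b, W a b ≤ 1 := stp_le_one s.hyp.adj_le_one π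
  have h1 : ∑ x, ∑ y, adj H c x y * ∑ w, W x w * W y w ≤
      ∑ x, ∑ y, adj H c x y * ∑ w, adj H c x w * W y w + (ε + φ) * n ^ 3 := by
    rw [sum_comm, sum_comm (f := fun x y => adj H c x y * ∑ w, adj H c x w * W y w)]
    have h2 : ∀ y, ∑ x, adj H c x y * ∑ w, W x w * W y w ≤
        ∑ x, adj H c x y * ∑ w, adj H c x w * W y w + (ε + φ) * n ^ 2 := by
      intro y
      have h3 := approx s (fun x => adj H c x y) (fun w => W y w) (fun x => s.hyp.adj_nonneg x y)
        (fun x => s.hyp.adj_le_one x y) (fun w => W0 y w) (fun w => W1 y w)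
      rw [abs_le] at h3
      have h4 : ∑ x, ∑ w, (adj H c x w - W x w) * (adj H c x y * W y w) =
          ∑ x, adj H c x y * ∑ w, adj H c x w * W y w - ∑ x, adj H c x y * ∑ w, W x w * W y w := by
        rw [← sum_sub_distrib]
        refine sum_congr rfl fun x _ => ?_
        rw [← mul_sub, ← sum_sub_distrib, mul_sum]
        exact sum_congr rfl fun w _ => by ring
      rw [h4] at h3
      linarith [h3.1]
    refine (sum_le_sum fun y _ => h2 y).trans ?_
    rw [sum_add_distrib, sum_const, card_univ, nsmul_eq_mul, ← hn]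
    have : n * ((ε + φ) * n ^ 2) = (ε + φ) * n ^ 3 := by ring
    rw [this]
  have h5 : ∑ x, ∑ y, adj H c x y * ∑ w, adj H c x w * W y w ≤
      ∑ x, ∑ y, adj H c x y * ∑ w, adj H c x w * adj H c y w + (ε + φ) * n ^ 3 := by
    have h2 : ∀ x, ∑ y, adj H c x y * ∑ w, adj H c x w * W y w ≤
        ∑ y, adj H c x y * ∑ w, adj H c x w * adj H c y w + (ε + φ) * n ^ 2 := by
      intro x
      have h3 := approx s (fun y => adj H c x y) (fun w => adj H c x w) (fun y => s.hyp.adj_nonneg x y)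
        (fun y => s.hyp.adj_le_one x y) (fun w => s.hyp.adj_nonneg x w) (fun w => s.hyp.adj_le_one x w)
      rw [abs_le] at h3
      have h4 : ∑ y, ∑ w, (adj H c y w - W y w) * (adj H c x y * adj H c x w) =
          ∑ y, adj H c x y * ∑ w, adj H c x w * adj H c y w - ∑ y, adj H c x y * ∑ w, adj H c x w * W y w := by
        rw [← sum_sub_distrib]
        refine sum_congr rfl fun y _ => ?_
        rw [← mul_sub, ← sum_sub_distrib, mul_sum]
        exact sum_congr rfl fun w _ => by ring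
      rw [h4] at h3
      linarith [h3.1]
    refine (sum_le_sum fun y _ => h2 y).trans ?_
    rw [sum_add_distrib, sum_const, card_univ, nsmul_eq_mul, ← hn]
    have : n * ((ε + φ) * n ^ 2) = (ε + φ) * n ^ 3 := by ring
    rw [this]
  have h6 : ∑ x, ∑ y, adj H c x y * ∑ w, adj H c x w * adj H c y w ≤
      α * ∑ x, m H c x ^ 2 + ((r : ℝ) - 1) ^ 2 * ∑ x, m H c x := by
    rw [mul_sum, mul_sum, ← sum_add_distrib]
    refine sum_le_sum fun x _ => ?_
    refine le_trans (le_of_eq ?_) (s.hyp.tri x)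
    refine sum_congr rfl fun y _ => ?_
    rw [mul_sum]
    exact sum_congr rfl fun w _ => by ring
  linarith

lemma lower_L (s : Setting r α H c M π Q ε φ) :
    ((r : ℝ) - 1) * ∑ x, m H c x ^ 2 - (ε + φ) * (Fintype.card V : ℝ) ^ 3 ≤
      ∑ x, m H c x * ∑ w, stp (adj H c) π x w := by
  set W := stp (adj H c) π with hW
  set n : ℝ := (Fintype.card V : ℝ) with hn
  have hn0 : 0 ≤ n := Nat.cast_nonneg _
  rcases hn0.eq_or_lt with hn0' | hnpos
  · have hemp : IsEmpty V := by
      rw [← Fintype.card_eq_zero_iff]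
      rw [hn] at hn0'
      exact_mod_cast hn0'.symm
    simp [← hn0']
  have hm1 : ∀ x, m H c x / n ≤ 1 := by
    intro x
    rw [div_le_one hnpos]
    exact s.hyp.m_le (by have := s.hr; omega) x
  have hm0 : ∀ x, 0 ≤ m H c x / n := fun x => div_nonneg (s.hyp.m_nonneg x) hn0
  have h1 := approx s (fun x => m H c x / n) (fun _ => 1) hm0 hm1 (fun _ => zero_le_one)
    (fun _ => le_rfl)
  have h2 : n * ∑ x, ∑ w, (adj H c x w - W x w) * (m H c x / n * 1) =
      ((r : ℝ) - 1) * ∑ x, m H c x ^ 2 - ∑ x, m H c x * ∑ w, W x w := by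
    rw [mul_sum, mul_sum, ← sum_sub_distrib]
    refine sum_congr rfl fun x _ => ?_
    have h3 := s.hyp.sum_adj_one x
    have h4 : ∑ w, (adj H c x w - W x w) * (m H c x / n * 1) =
        (∑ w, adj H c x w - ∑ w, W x w) * (m H c x / n) := by
      rw [← sum_sub_distrib, sum_mul]
      exact sum_congr rfl fun w _ => by ring
    rw [h4, h3]
    field_simp
  rw [abs_le] at h1
  have h5 := mul_le_mul_of_nonneg_left h1.2 hn0
  have h6 : n * ∑ x, ∑ w, (adj H c x w - stp (adj H c) π x w) * (m H c x / n * 1) =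
    n * ∑ x, ∑ w, (adj H c x w - W x w) * (m H c x / n * 1) := rfl
  rw [h6, h2] at h5
  have h7 : n * ((ε + φ) * n ^ 2) = (ε + φ) * n ^ 3 := by ring
  linarith

lemma upper_L (h : Hyp r α H c) (W : V → V → ℝ) :
    (∑ x, m H c x * ∑ w, W x w) ^ 2 ≤ (∑ E ∈ H, c E) * (Fintype.card V : ℝ) *
      (∑ x, m H c x * ∑ w, W x w ^ 2 + ∑ x, ∑ y, adj H c x y * ∑ w, W x w * W y w) := by
  have h1 : ∑ x, m H c x * ∑ w, W x w =
      ∑ p ∈ H ×ˢ (univ : Finset V), √(c p.1) * (√(c p.1) * ∑ x ∈ p.1, W x p.2) := by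
    rw [sum_m_mul, sum_product]
    refine sum_congr rfl fun E _ => ?_
    simp only
    rw [← mul_sum, ← mul_sum, ← mul_assoc, Real.mul_self_sqrt (h.c0 E), sum_comm]
  have h2 : ∑ x, m H c x * ∑ w, W x w ^ 2 + ∑ x, ∑ y, adj H c x y * ∑ w, W x w * W y w =
      ∑ p ∈ H ×ˢ (univ : Finset V), (√(c p.1) * ∑ x ∈ p.1, W x p.2) ^ 2 := by
    rw [sum_product, sum_m_mul]
    have h3 : ∑ x, ∑ y, adj H c x y * ∑ w, W x w * W y w =
        ∑ E ∈ H, c E * ∑ x ∈ E, ∑ y ∈ E.erase x, ∑ w, W x w * W y w := by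
      have h4 : ∀ x, ∑ y, adj H c x y * ∑ w, W x w * W y w =
          ∑ E ∈ H, if x ∈ E then c E * ∑ y ∈ E.erase x, ∑ w, W x w * W y w else 0 := by
        intro x
        rw [sum_adj H c x, sum_filter]
      simp only [h4]
      rw [sum_comm]
      refine sum_congr rfl fun E _ => ?_
      rw [← sum_filter, filter_mem_eq_inter, univ_inter, mul_sum]
    rw [h3, ← sum_add_distrib]
    refine sum_congr rfl fun E _ => ?_
    rw [← mul_add, ← sum_add_distrib]
    have h5 : ∀ w, (√(c E) * ∑ x ∈ E, W x w) ^ 2 = c E * ∑ x ∈ E, ∑ y ∈ E, W x w * W y w := by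
      intro w
      rw [mul_pow, Real.sq_sqrt (h.c0 E), sq, sum_mul_sum]
    simp only [h5]
    rw [← mul_sum]
    congr 1
    rw [sum_comm]
    refine sum_congr rfl fun x hx => ?_
    rw [sum_comm (s := univ) (t := E), ← Finset.add_sum_erase E _ hx]
    congr 1
    exact sum_congr rfl fun w _ => by ring
  rw [h1, h2]
  have h6 := sum_mul_sq_le_sq_mul_sq (H ×ˢ (univ : Finset V)) (fun p => √(c p.1))
    (fun p => √(c p.1) * ∑ x ∈ p.1, W x p.2)
  refine h6.trans (le_of_eq ?_)
  congr 1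
  rw [sum_product]
  have h7 : ∀ E ∈ H, ∑ w : V, √(c (E, w).1) ^ 2 = c E * (Fintype.card V : ℝ) := by
    intro E _
    simp only [Real.sq_sqrt (h.c0 E), sum_const, card_univ, nsmul_eq_mul]
    ring
  rw [sum_congr rfl h7, sum_mul]

open Classical in
/-- The main inequality. -/
theorem core (s : Setting r α H c M π Q ε φ) {η : ℝ} (hη : 0 ≤ η) :
    (∑ x, m H c x * ∑ w, stp (adj H c) π x w) ^ 2 ≤ (∑ E ∈ H, c E) * (Fintype.card V : ℝ) *
      ((α * (3 * r - 5) / (2 * (r - 2)) + 2 * η) * ∑ x, m H c x ^ 2 +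
        (3 * ε + (M + 2) * φ) * (Fintype.card V : ℝ) ^ 3 + ((r : ℝ) - 1) ^ 2 * ∑ x, m H c x +
        (Fintype.card V : ℝ) * ∑ x, wY H c x (univ.filter (fun y =>
          bad H (stp (adj H c) π) (α / 2 + η) x y))) := by
  set W := stp (adj H c) π with hW
  set n : ℝ := (Fintype.card V : ℝ) with hn
  set t : ℝ := α / 2 + η with ht
  have hn0 : 0 ≤ n := Nat.cast_nonneg _
  have hr3 : (3 : ℝ) ≤ r := by exact_mod_cast s.hr
  refine (upper_L s.hyp W).trans ?_
  refine mul_le_mul_of_nonneg_left ?_ (mul_nonneg (sum_nonneg fun E _ => s.hyp.c0 E) hn0)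
  have h1 := diag_approx s
  have h2 := tri_approx s
  rw [← hW, ← hn] at h1 h2
  set B : V → Finset V := fun x => univ.filter (fun x' => bad H W t x' x) with hB
  have h3 : ∀ x, ∑ w, adj H c x w * W x w ≤
      ((r : ℝ) - 1) / ((r : ℝ) - 2) * t * m H c x + wY H c x (B x) := by
    intro x
    have h4 := flag_bound s hη x (B x) (fun x' hx' => by
      rw [hB]
      simp only [mem_filter, mem_univ, true_and]
      exact hx')
    rw [← hW, ← ht] at h4
    have h5 : (0 : ℝ) < (r : ℝ) - 2 := by linarith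
    rw [mul_comm, ← le_div_iff₀ h5] at h4
    refine h4.trans (le_of_eq ?_)
    field_simp
  have h6 : ∑ x, m H c x * ∑ w, adj H c x w * W x w ≤
      ((r : ℝ) - 1) / ((r : ℝ) - 2) * t * ∑ x, m H c x ^ 2 + n * ∑ x, wY H c x (B x) := by
    rw [mul_sum, mul_sum, ← sum_add_distrib]
    refine sum_le_sum fun x _ => ?_
    have h7 := mul_le_mul_of_nonneg_left (h3 x) (s.hyp.m_nonneg x)
    have h8 : m H c x * wY H c x (B x) ≤ n * wY H c x (B x) :=
      mul_le_mul_of_nonneg_right (s.hyp.m_le (by have := s.hr; omega) x)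
        (sum_nonneg fun y _ => s.hyp.adj_nonneg x y)
    nlinarith
  have h9 : ∑ x, wY H c x (B x) = ∑ x, wY H c x (univ.filter (fun y => bad H W t x y)) := by
    simp only [hB, wY, sum_filter]
    rw [sum_comm]
    refine sum_congr rfl fun x _ => sum_congr rfl fun y _ => ?_
    rw [adj_symm H c y x]
  rw [h9] at h6
  have h10 : ((r : ℝ) - 1) / ((r : ℝ) - 2) * t + α ≤
      α * (3 * r - 5) / (2 * (r - 2)) + 2 * η := by
    have h5 : (0 : ℝ) < (r : ℝ) - 2 := by linarith
    have h11 : ((r : ℝ) - 1) / ((r : ℝ) - 2) * t + α =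
        α * (3 * r - 5) / (2 * (r - 2)) + ((r : ℝ) - 1) / ((r : ℝ) - 2) * η := by
      rw [ht]
      field_simp
      ring
    rw [h11]
    have h12 : ((r : ℝ) - 1) / ((r : ℝ) - 2) ≤ 2 := by
      rw [div_le_iff₀ h5]
      linarith
    have := mul_le_mul_of_nonneg_right h12 hη
    linarith
  have hS : 0 ≤ ∑ x, m H c x ^ 2 := sum_nonneg fun x _ => sq_nonneg _
  have h13 := mul_le_mul_of_nonneg_right h10 hS
  have h14 : (((r : ℝ) - 1) / ((r : ℝ) - 2) * t + α) * ∑ x, m H c x ^ 2 =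
    ((r : ℝ) - 1) / ((r : ℝ) - 2) * t * ∑ x, m H c x ^ 2 + α * ∑ x, m H c x ^ 2 := by ring
  have h15 : (3 * ε + (M + 2) * φ) * n ^ 3 = (ε + M * φ) * n ^ 3 + 2 * (ε + φ) * n ^ 3 := by ring
  linarith

end Pool.Agent.H62.BS
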